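import Pool.Agent.T9h7.RE.Leaf
import Pool.Agent.T9h7.RE.Main

/-!
The abstract game: a sequence of configurations, true at the beginning and false at the end.
-/

set_option autoImplicit false

namespace Pool.Agent.T9h7.RE

open Pool.Agent.T9h7.RD

variable {n : ℕ}

/-- the game on macro steps, relative to a partial assignment -/
theorem game3 {F : Finset (Finset (Fin n × Bool))} {M : ℕ → Finset (Finset (Fin n × Bool))}
    {T s η H J X dl : ℕ} {ε : ℝ} {r0 : Finset (Fin n × Bool)}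
    (hleaf : ∀ (a : ℕ) (r : Finset (Fin n × Bool)), a < T → Cons r → r0 ⊆ r → Good M r a →
      Bad M r (a + 1) → Win F dl r)
    (hs : ∀ t ≤ T, ∑ C ∈ M t, C.card ≤ s)
    (he0 : 0 < ε) (heJ : ε * 2 ^ J ≤ 1) (hH : H = 22 * (J + 1) * η)
    (hne : ∀ t, 0 < t → t < T → (M t).Nonempty)
    (hbd : ∀ σ : St n, Inv M T η ε σ → σ.a + 2 ≤ σ.b → σ.nA + σ.nI + σ.nB ≤ X) :
    ∀ (N : ℕ) (r : Finset (Fin n × Bool)) (σ : St n), r0 ⊆ r → Cons r → Inv M T η ε σ → Good M r σ.a →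
      Bad M r σ.b → (X - (σ.nA + σ.nI + σ.nB)) / 2 ^ J + 1 ≤ N →
      Win F (N * (2 ^ (J + 1) * H * (J + 1) + s) + dl) r := by
  intro N
  induction N with
  | zero => intro r σ _ _ _ _ _ h; exact absurd h (Nat.not_succ_le_zero _)
  | succ N ih =>
    intro r x hr0 hr hx hg hb hN
    have hfinish : ∀ (d : ℕ) (r' : Finset (Fin n × Bool)) (y : St n), dl ≤ d → r0 ⊆ r' → Cons r' →
        Inv M T η ε y → Good M r' y.a → Bad M r' y.b → y.b = y.a + 1 → Win F d r' := by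
      intro d r' y h0 h00 h1 h2 h3 h4 h5
      rw [h5] at h4
      exact (hleaf y.a r' (by have := h2.bT; omega) h1 h00 h3 h4).mono h0
    by_cases hL : x.a + 2 ≤ x.b
    swap
    · have hlt := hx.lt
      exact hfinish _ r x (Nat.le_add_left _ _) hr0 hr hx hg hb (by omega)
    have next : ∀ (r' : Finset (Fin n × Bool)) (y : St n), r0 ⊆ r' → Cons r' → Inv M T η ε y →
        Good M r' y.a → Bad M r' y.b →
        (y.nA + y.nI + y.nB = x.nA + x.nI + x.nB + 2 ^ J ∨ y.b = y.a + 1) →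
        Win F (N * (2 ^ (J + 1) * H * (J + 1) + s) + dl) r' := by
      intro r' y h0 h1 h2 h3 h4 h5
      by_cases hfin : y.b = y.a + 1
      · exact hfinish _ r' y (Nat.le_add_left _ _) h0 h1 h2 h3 h4 hfin
      · have h6 := h5.resolve_right hfin
        have hlt := h2.lt
        have h7 := hbd y h2 (by omega)
        apply ih r' y h0 h1 h2 h3 h4
        have hpJ : 0 < 2 ^ J := by positivity
        have e3 : (X - (x.nA + x.nI + x.nB)) / 2 ^ J = (X - (y.nA + y.nI + y.nB)) / 2 ^ J + 1 := by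
          have : X - (x.nA + x.nI + x.nB) = (X - (y.nA + y.nI + y.nB)) + 2 ^ J := by omega
          rw [this, Nat.add_div_right _ (by positivity)]
        rw [e3] at hN
        omega
    have hcost : (N + 1) * (2 ^ (J + 1) * H * (J + 1) + s) + dl
        = (N * (2 ^ (J + 1) * H * (J + 1) + s) + dl + s) + 2 ^ (J + 1) * H * (J + 1) := by ring
    rw [hcost]
    refine run he0 heJ hH hne J (le_refl _) (N * (2 ^ (J + 1) * H * (J + 1) + s) + dl + s)
      (fun _ => ⟨∅, 0, 0⟩) x r hr hx hL hb (fun j h1 h2 => absurd h2 (by omega)) ?_ ?_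
    · intro y r1 hr1 hrr1 hout
      refine eval_clauses (M y.a) s (hs _ (by have h1 := hout.inv.lt; have h2 := hout.inv.bT; omega))
        r1 hr1 ?_
      intro r2 hr2 hrr2 hdec
      by_cases hgg : ∀ C ∈ M y.a, Sat r2 C
      · exact next r2 y (hr0.trans (hrr1.trans hrr2)) hr2 hout.inv hgg (hout.bad.mono hrr2) hout.pr
      · push Not at hgg
        obtain ⟨C, hC, hns⟩ := hgg
        have hCf := (hdec C hC).resolve_left hns
        rcases hout.lk C hC with h | h | ⟨t, ht1, ht2, hCt, hInv⟩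
        · exact (not_sat_false hr2 (h.mono hrr2) hCf).elim
        · exact (not_sat_false hr2 ((hg C h).mono (hrr1.trans hrr2)) hCf).elim
        · refine next r2 _ (hr0.trans (hrr1.trans hrr2)) hr2 hInv (hg.mono (hrr1.trans hrr2)) ⟨C, hCt, hCf⟩ (Or.inl ?_)
          simp only; omega
    · intro r1 hr1 hrr1 ⟨C, hC, hCf⟩
      exact (not_sat_false hr1 ((hg C hC).mono hrr1) hCf).elim


/-- the abstract game -/
theorem ag (hnum : SNum) : ∃ K : ℕ, ∀ (n s w T : ℕ), 1 ≤ w → w ≤ s → s ≤ n →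
    T ≤ (2 * n * s + 1) ^ s → ∃ cost : ℕ,
    (cost : ℝ) ≤ (K : ℝ) * (s : ℝ) * (w : ℝ) * (Real.log ((n : ℝ) + 2)) ^ 3 ∧
    ∀ (F : Finset (Finset (Fin n × Bool))) (M : ℕ → Finset (Finset (Fin n × Bool))) (T' dl : ℕ)
      (r0 : Finset (Fin n × Bool)), T' ≤ T →
      (∀ t ≤ T', ∑ C ∈ M t, C.card ≤ s) → (∀ t ≤ T', ∀ C ∈ M t, C.card ≤ w) →
      Cons r0 → Good M r0 0 → Bad M r0 T' →
      (∀ (a : ℕ) (r : Finset (Fin n × Bool)), a < T' → Cons r → r0 ⊆ r → Good M r a →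
        Bad M r (a + 1) → Win F dl r) → Win F (cost + dl) r0 := by
  obtain ⟨K, hK⟩ := hnum
  refine ⟨K, ?_⟩
  intro n s w T h1w hws hsn hT
  obtain ⟨J, η, X, hη, hηJ, hab, hfin⟩ := hK n s w T h1w hws hsn hT
  refine ⟨(X / 2 ^ J + 2) * (2 ^ (J + 1) * (22 * (J + 1) * η) * (J + 1) + s), hfin, ?_⟩
  intro F M0 T0 dl r0 hT0 hs0 hw0 hr0 hg0 hb0 hleaf0
  -- skip the empty configurations
  have hex : ∃ a0 < T0, Good M0 r0 a0 ∧ ∀ t, a0 < t → t < T0 → (M0 t).Nonempty := by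
    have hT0pos : 0 < T0 := by
      rcases Nat.eq_zero_or_pos T0 with h | h
      · subst h
        obtain ⟨C, hC, hCr⟩ := hb0
        exact (not_sat_false hr0 (hg0 C hC) hCr).elim
      · exact h
    by_cases hE : ((Finset.range T0).filter (fun t => M0 t = ∅)).Nonempty
    · obtain ⟨a0, ha0, hmax⟩ := Finset.exists_max_image _ (fun t : ℕ => t) hE
      rw [Finset.mem_filter, Finset.mem_range] at ha0
      refine ⟨a0, ha0.1, ?_, ?_⟩
      · intro C hC
        rw [ha0.2] at hC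
        simp at hC
      · intro t h1 h2
        rw [Finset.nonempty_iff_ne_empty]
        intro h3
        have := hmax t (Finset.mem_filter.mpr ⟨Finset.mem_range.mpr h2, h3⟩)
        omega
    · refine ⟨0, hT0pos, hg0, ?_⟩
      intro t h1 h2
      rw [Finset.nonempty_iff_ne_empty]
      intro h3
      exact hE ⟨t, Finset.mem_filter.mpr ⟨Finset.mem_range.mpr h2, h3⟩⟩
  obtain ⟨a0, ha0, hga0, hne0⟩ := hex
  set M : ℕ → Finset (Finset (Fin n × Bool)) := fun t => M0 (a0 + t) with hM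
  set T1 : ℕ := T0 - a0 with hT1
  have hT1T : T1 ≤ T := by omega
  have hs : ∀ t ≤ T1, ∑ C ∈ M t, C.card ≤ s := fun t ht => hs0 (a0 + t) (by omega)
  have hw : ∀ t ≤ T1, ∀ C ∈ M t, C.card ≤ w := fun t ht => hw0 (a0 + t) (by omega)
  have hne : ∀ t, 0 < t → t < T1 → (M t).Nonempty := fun t h1 h2 =>
    hne0 (a0 + t) (by omega) (by omega)
  have h2J : (0 : ℝ) < (2 : ℝ) ^ J := by positivity
  have hε0 : (0 : ℝ) < 1 / (2 : ℝ) ^ J := by positivity
  have hεJ : 1 / (2 : ℝ) ^ J * 2 ^ J ≤ 1 := by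
    rw [one_div, inv_mul_cancel₀ h2J.ne']
  have hεη : 2 * (s : ℝ) * (1 / (2 : ℝ) ^ J) ≤ (η : ℝ) := by
    rw [mul_one_div, div_le_iff₀ h2J]
    exact_mod_cast hηJ
  have hbd : ∀ σ : St n, Inv M T1 η (1 / (2 : ℝ) ^ J) σ → σ.a + 2 ≤ σ.b →
      σ.nA + σ.nI + σ.nB ≤ X := by
    intro σ hσ hab'
    obtain ⟨b1, b2, b3⟩ := Pool.Agent.T9h77.RE.sBnd n M T1 η s w (1 / (2 : ℝ) ^ J) hε0 hεη hne hs hw
      σ hσ hab'
    exact hab _ _ _ (b1.trans hT1T) b2 b3
  have hinit : Inv M T1 η (1 / (2 : ℝ) ^ J) (⟨0, T1, 0, 0, 0, fun _ => 0⟩ : St n) := by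
    constructor
    · simp only; omega
    · exact le_refl _
    · simp only [Nat.sub_zero, pow_zero, mul_one]; omega
    · simp only [Nat.cast_zero, mul_zero, sub_zero, Real.exp_zero, mul_one]
      exact W_start M 0 T1
    · intro t _ _
      simp
    · intro C
      exact le_refl _
  have hleaf : ∀ (a : ℕ) (r : Finset (Fin n × Bool)), a < T1 → Cons r → r0 ⊆ r → Good M r a →
      Bad M r (a + 1) → Win F dl r := by
    intro a r h1 h2 h3 h4 h5
    exact hleaf0 (a0 + a) r (by omega) h2 h3 h4 h5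
  refine game3 (F := F) (M := M) (T := T1) (s := s) (η := η) (H := 22 * (J + 1) * η) (J := J)
    (X := X) (dl := dl) (ε := 1 / (2 : ℝ) ^ J) (r0 := r0) hleaf
    hs hε0 hεJ rfl hne hbd (X / 2 ^ J + 2) r0
    (⟨0, T1, 0, 0, 0, fun _ => 0⟩ : St n) (Finset.Subset.refl _) hr0 hinit ?_ ?_ ?_
  · exact hga0
  · obtain ⟨C, hC, hCr⟩ := hb0
    refine ⟨C, ?_, hCr⟩
    simp only [hM, hT1]
    rw [Nat.add_sub_cancel' ha0.le]
    exact hC
  · simp only [add_zero, Nat.sub_zero]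
    omega

end Pool.Agent.T9h7.RE
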