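import Pool.Agent.T9h7.RD.Game

/-!
Refutations with at most one wide clause at a time: statements.
-/

set_option autoImplicit false
open Filter

namespace Pool.Agent.T9h7.RE

open Pool.Agent.T9h7.RD

/-- a step which adds at most one clause (a clause of F or a resolvent) and deletes clauses -/
def GStp {n : ℕ} (F A B : Finset (Finset (Fin n × Bool))) : Prop :=
  B ⊆ A ∨ (∃ C ∈ F, B ⊆ insert C A) ∨
  (∃ P ∈ A, ∃ Q ∈ A, ∃ v : Fin n, (v, true) ∈ P ∧ (v, false) ∈ Q ∧
    B ⊆ insert (P.erase (v, true) ∪ Q.erase (v, false)) A)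

/-- at most one clause of width more than w -/
def One {n : ℕ} (w : ℕ) (A : Finset (Finset (Fin n × Bool))) : Prop :=
  ∀ C ∈ A, ∀ C' ∈ A, w < C.card → w < C'.card → C = C'

/-- piece (PATHG). From a refutation in which no two consecutive configurations both contain two
clauses of width more than w: drop the configurations which are not One (they are isolated; before
one of them is an insertion, after it a deletion: insertions do not help, so the double step is a
GStp), end with {∅} (GStp by deletion), take a shortest sequence. -/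
def SPathG : Prop := ∀ (n : ℕ) (F : Finset (Finset (Fin n × Bool))) (s w τ : ℕ)
  (M : ℕ → Finset (Finset (Fin n × Bool))), IsRef F τ M →
  (∀ t ≤ τ, ∑ C ∈ M t, C.card ≤ s) →
  (∀ t < τ, One w (M t) ∨ One w (M (t + 1))) →
  ∃ T : ℕ, ∃ G : ℕ → Finset (Finset (Fin n × Bool)),
    G 0 = ∅ ∧ G T = {∅} ∧ (∀ t < T, GStp F (G t) (G (t + 1))) ∧
    (∀ t ≤ T, ∑ C ∈ G t, C.card ≤ s) ∧ (∀ t ≤ T, One w (G t)) ∧
    (∀ i < T, ∀ j < T, G i = G j → i = j) ∧ (∀ t < T, (∅ : Finset (Fin n × Bool)) ∉ G t)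

/-- the main bound for refutations with at most one wide clause at a time -/
def MainBound3 : Prop := ∃ K : ℕ, ∀ (n : ℕ) (F : Finset (Finset (Fin n × Bool)))
    (D s w τ : ℕ) (M : ℕ → Finset (Finset (Fin n × Bool))),
    IsLeast {d | HasDepth F d} D → IsRef F τ M → 1 ≤ w →
    (∀ t ≤ τ, ∑ C ∈ M t, C.card ≤ s) →
    (∀ t < τ, One w (M t) ∨ One w (M (t + 1))) →
    (D : ℝ) ≤ (K : ℝ) * (s : ℝ) * (w : ℝ) * (Real.log ((n : ℝ) + 2)) ^ 3

/-- piece (CORC). S = the maximal total size, w = floor(S/(log n)^(2c+4)) (if w = 0, i.e.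
S < (log n)^(2c+4): then D ≤ polylog, see below). If every two consecutive configurations contain one
which is One w, MainBound3 and S^2 ≤ D (log n)^(2c) give S ≤ K w L^3 (log n)^(2c), a contradiction
for large n. So some t has two clauses of width more than w in M t (and in M (t+1)). D_n larger than
every power of log n excludes w = 0: then One 1-type: MainBound3 with w = S (trivially One S) gives
D ≤ K S^2 L^3. -/
def SCorC : Prop := MainBound3 → ∀ (F : (n : ℕ) → Finset (Finset (Fin n × Bool))) (D : ℕ → ℕ),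
    (∀ n, IsLeast {d | HasDepth (F n) d} (D n)) →
    (∀ k : ℕ, Tendsto (fun n : ℕ => (D n : ℝ) / Real.log (n : ℝ) ^ k) atTop atTop) →
    ∀ c : ℕ, ∀ᶠ n in atTop, ∀ (τ : ℕ) (M : ℕ → Finset (Finset (Fin n × Bool))),
      IsRef (F n) τ M →
      (∀ t ≤ τ, ((∑ C ∈ M t, C.card : ℕ) : ℝ) ≤ Real.sqrt (D n) * (Real.log n) ^ c) →
      ∃ t < τ, ∃ C ∈ M t, ∃ C' ∈ M t, C ≠ C' ∧ ∀ u ≤ τ,
        ((∑ C'' ∈ M u, C''.card : ℕ) : ℝ) ≤ (C.card : ℝ) * (Real.log n) ^ (2 * c + 4) ∧
        ((∑ C'' ∈ M u, C''.card : ℕ) : ℝ) ≤ (C'.card : ℝ) * (Real.log n) ^ (2 * c + 4)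

end Pool.Agent.T9h7.RE
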