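import Pool.Agent.T9h7.RE.Ag
import Pool.Agent.T9h7.RE.Spec4

/-!
At most one wide clause at a time.
-/

set_option autoImplicit false

namespace Pool.Agent.T9h7.RE

open Pool.Agent.T9h7.RD

variable {n : ℕ}

theorem leaf_g {F A B : Finset (Finset (Fin n × Bool))} (h0 : GStp F A B)
    {r : Finset (Fin n × Bool)} (hr : Cons r) (hg : ∀ C ∈ A, Sat r C) (hb : ∃ C ∈ B, C ⊆ r) :
    Win F 0 r := by
  obtain ⟨C, hC, hCr⟩ := hb
  rcases h0 with h | ⟨C0, hC0, h⟩ | ⟨P, hP, Q, hQ, v, hv1, hv2, h⟩
  · exact leaf_step (B := B) (Or.inr (Or.inr h)) hr hg ⟨C, hC, hCr⟩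
  · exact leaf_step (B := insert C0 A) (Or.inl ⟨C0, hC0, rfl⟩) hr hg ⟨C, h hC, hCr⟩
  · exact leaf_step (B := insert (P.erase (v, true) ∪ Q.erase (v, false)) A)
      (Or.inr (Or.inl ⟨P, hP, Q, hQ, v, hv1, hv2, rfl⟩)) hr hg ⟨C, h hC, hCr⟩

/-- the narrow part -/
def Nr (w : ℕ) (A : Finset (Finset (Fin n × Bool))) : Finset (Finset (Fin n × Bool)) :=
  A.filter (fun C => C.card ≤ w)

theorem n_step {F A B : Finset (Finset (Fin n × Bool))} {w : ℕ} (h0 : GStp F A B)
    (h1 : (∀ C ∈ A, w < C.card → w + 1 < C.card) ∨ (∃ C ∈ B, w + 1 < C.card ∧ C ∉ A)) :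
    GStp F (Nr w A) (Nr w B) := by
  rcases h0 with h | ⟨C0, hC0, h⟩ | ⟨P, hP, Q, hQ, v, hv1, hv2, h⟩
  · exact Or.inl (Finset.filter_subset_filter _ h)
  · refine Or.inr (Or.inl ⟨C0, hC0, ?_⟩)
    intro x hx
    obtain ⟨hx1, hx2⟩ := Finset.mem_filter.mp hx
    rcases Finset.mem_insert.mp (h hx1) with h3 | h3
    · exact Finset.mem_insert.mpr (Or.inl h3)
    · exact Finset.mem_insert.mpr (Or.inr (Finset.mem_filter.mpr ⟨h3, hx2⟩))
  · by_cases hR : (P.erase (v, true) ∪ Q.erase (v, false)).card ≤ w
    · -- the resolvent is narrow: both parents are narrow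
      rcases h1 with h1 | ⟨C, hC, hCw, hCA⟩
      · have hPw : P.card ≤ w := by
          by_contra hcon
          have h2 := h1 P hP (by omega)
          have h3 : (P.erase (v, true)).card ≤
              (P.erase (v, true) ∪ Q.erase (v, false)).card :=
            Finset.card_le_card Finset.subset_union_left
          rw [Finset.card_erase_of_mem hv1] at h3
          omega
        have hQw : Q.card ≤ w := by
          by_contra hcon
          have h2 := h1 Q hQ (by omega)
          have h3 : (Q.erase (v, false)).card ≤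
              (P.erase (v, true) ∪ Q.erase (v, false)).card :=
            Finset.card_le_card Finset.subset_union_right
          rw [Finset.card_erase_of_mem hv2] at h3
          omega
        refine Or.inr (Or.inr ⟨P, Finset.mem_filter.mpr ⟨hP, hPw⟩, Q,
          Finset.mem_filter.mpr ⟨hQ, hQw⟩, v, hv1, hv2, ?_⟩)
        intro x hx
        obtain ⟨hx1, hx2⟩ := Finset.mem_filter.mp hx
        rcases Finset.mem_insert.mp (h hx1) with h3 | h3
        · exact Finset.mem_insert.mpr (Or.inl h3)
        · exact Finset.mem_insert.mpr (Or.inr (Finset.mem_filter.mpr ⟨h3, hx2⟩))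
      · rcases Finset.mem_insert.mp (h hC) with h3 | h3
        · rw [h3] at hCw
          omega
        · exact absurd h3 hCA
    · left
      intro x hx
      obtain ⟨hx1, hx2⟩ := Finset.mem_filter.mp hx
      rcases Finset.mem_insert.mp (h hx1) with h3 | h3
      · rw [h3] at hx2
        exact absurd hx2 hR
      · exact Finset.mem_filter.mpr ⟨h3, hx2⟩

/-- the configuration of the negated unit clauses -/
def Un (D : Finset (Fin n × Bool)) : Finset (Finset (Fin n × Bool)) :=
  D.image (fun l => {(l.1, !l.2)})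

theorem un_width {D C : Finset (Fin n × Bool)} (hC : C ∈ Un D) : C.card = 1 := by
  obtain ⟨l, _, rfl⟩ := Finset.mem_image.mp hC
  exact Finset.card_singleton _

theorem un_size (D : Finset (Fin n × Bool)) : ∑ C ∈ Un D, C.card ≤ D.card := by
  rw [Finset.sum_congr rfl (fun C hC => un_width hC)]
  simp only [Finset.sum_const, smul_eq_mul, mul_one]
  exact Finset.card_image_le

theorem un_good {D r : Finset (Fin n × Bool)} : (∀ C ∈ Un D, Sat r C) ↔ D ⊆ r := by
  constructor
  · intro h l hl
    obtain ⟨l', hl', h2⟩ := h {(l.1, !l.2)} (Finset.mem_image_of_mem _ hl)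
    rw [Finset.mem_singleton] at hl'
    subst hl'
    simpa using h2
  · intro h C hC
    obtain ⟨l, hl, rfl⟩ := Finset.mem_image.mp hC
    refine ⟨(l.1, !l.2), Finset.mem_singleton_self _, ?_⟩
    simpa using h hl

theorem un_bad {D r : Finset (Fin n × Bool)} : (∃ C ∈ Un D, C ⊆ r) ↔ Sat r D := by
  constructor
  · rintro ⟨C, hC, hCr⟩
    obtain ⟨l, hl, rfl⟩ := Finset.mem_image.mp hC
    exact ⟨l, hl, hCr (Finset.mem_singleton_self _)⟩
  · rintro ⟨l, hl, h2⟩
    exact ⟨{(l.1, !l.2)}, Finset.mem_image_of_mem _ hl, Finset.singleton_subset_iff.mpr h2⟩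

/-- an interval between two configurations without wide clause -/
theorem burst {F : Finset (Finset (Fin n × Bool))} {G : ℕ → Finset (Finset (Fin n × Bool))}
    {s w T cN cL : ℕ} (hs : ∀ t ≤ T, ∑ C ∈ G t, C.card ≤ s) (hone : ∀ t ≤ T, One w (G t))
    (hst : ∀ t < T, GStp F (G t) (G (t + 1)))
    (agN : ∀ (M : ℕ → Finset (Finset (Fin n × Bool))) (T' dl : ℕ)
      (r0 : Finset (Fin n × Bool)), T' ≤ T →
      (∀ t ≤ T', ∑ C ∈ M t, C.card ≤ s) → (∀ t ≤ T', ∀ C ∈ M t, C.card ≤ w) →
      Cons r0 → Good M r0 0 → Bad M r0 T' →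
      (∀ (a : ℕ) (r : Finset (Fin n × Bool)), a < T' → Cons r → r0 ⊆ r → Good M r a →
        Bad M r (a + 1) → Win F dl r) → Win F (cN + dl) r0)
    (agL : ∀ (M : ℕ → Finset (Finset (Fin n × Bool))) (T' dl : ℕ)
      (r0 : Finset (Fin n × Bool)), T' ≤ T →
      (∀ t ≤ T', ∑ C ∈ M t, C.card ≤ s) → (∀ t ≤ T', ∀ C ∈ M t, C.card ≤ 1) →
      Cons r0 → Good M r0 0 → Bad M r0 T' →
      (∀ (a : ℕ) (r : Finset (Fin n × Bool)), a < T' → Cons r → r0 ⊆ r → Good M r a →
        Bad M r (a + 1) → Win F dl r) → Win F (cL + dl) r0)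
    {u v : ℕ} (huv : u < v) (hvT : v ≤ T) (hpu : ∀ C ∈ G u, C.card ≤ w + 1)
    (hint : ∀ t, u < t → t < v → ∃ C ∈ G t, w + 1 < C.card)
    {r : Finset (Fin n × Bool)} (hr : Cons r) (hg : Good G r u) (hb : Bad G r v) :
    Win F (cL + (cN + 1) + s) r := by
  classical
  by_cases hv1 : v = u + 1
  · subst hv1
    exact (leaf_g (hst u (by omega)) hr hg hb).mono (Nat.zero_le _)
  have hv2 : u + 2 ≤ v := by omega
  -- the narrow game
  have hN : ∀ t, u < t → t ≤ v → ∀ r' : Finset (Fin n × Bool), Cons r' → r ⊆ r' →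
      (∃ C ∈ Nr w (G t), C ⊆ r') → Win F cN r' := by
    intro t ht1 ht2 r' hr' hrr' hbad
    have key := agN (fun i => Nr w (G (u + i))) (t - u) 0 r' (by omega) ?_ ?_ hr' ?_ ?_ ?_
    · simpa using key
    · intro i hi
      refine le_trans ?_ (hs (u + i) (by omega))
      exact Finset.sum_le_sum_of_subset (Finset.filter_subset _ _)
    · intro i _ C hC
      exact (Finset.mem_filter.mp hC).2
    · intro C hC
      exact (hg C (Finset.mem_filter.mp hC).1).mono hrr'
    · obtain ⟨C, hC, hCr⟩ := hbad
      refine ⟨C, ?_, hCr⟩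
      simp only
      rw [Nat.add_sub_cancel' ht1.le]
      exact hC
    · intro a r'' ha h1 _ h3 h4
      refine leaf_g (n_step (hst (u + a) (by omega)) ?_) h1 h3 h4
      rcases Nat.eq_zero_or_pos a with h0 | h0
      · subst h0
        right
        obtain ⟨C, hC, hCw⟩ := hint (u + 1) (by omega) (by omega)
        refine ⟨C, hC, hCw, ?_⟩
        intro hcon
        have := hpu C hcon
        omega
      · left
        intro C hC hCw
        obtain ⟨C', hC', hCw'⟩ := hint (u + a) (by omega) (by omega)
        have := hone (u + a) (by omega) C hC C' hC' hCw (by omega)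
        rw [this]
        exact hCw'
  obtain ⟨C, hC, hCr⟩ := hb
  by_cases hCn : C.card ≤ w
  · exact (hN v huv (le_refl _) r hr (Finset.Subset.refl _)
      ⟨C, Finset.mem_filter.mpr ⟨hC, hCn⟩, hCr⟩).mono (by omega)
  · push Not at hCn
    -- the evolution of the wide clause
    have hch : ∀ t, ∃ D : Finset (Fin n × Bool), (u < t → t < v → D ∈ G t ∧ w < D.card) ∧
        (t = v → D = C) := by
      intro t
      by_cases htv : t = v
      · exact ⟨C, fun _ h => absurd h (by omega), fun _ => rfl⟩
      · by_cases ht : u < t ∧ t < v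
        · obtain ⟨D, hD, hDw⟩ := hint t ht.1 ht.2
          exact ⟨D, fun _ _ => ⟨hD, by omega⟩, fun h => absurd h htv⟩
        · exact ⟨∅, fun h1 h2 => absurd ⟨h1, h2⟩ ht, fun h => absurd h htv⟩
    choose Dd hDd1 hDd2 using hch
    have hDv : Dd v = C := hDd2 v rfl
    have hDmem : ∀ t, u < t → t ≤ v → Dd t ∈ G t ∧ w < (Dd t).card := by
      intro t h1 h2
      rcases Nat.lt_or_ge t v with h3 | h3
      · exact hDd1 t h1 h3
      · have : t = v := by omega
        subst this
        rw [hDv]
        exact ⟨hC, hCn⟩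
    have hDsize : ∀ t, u < t → t ≤ v → (Dd t).card ≤ s := by
      intro t h1 h2
      exact (Finset.single_le_sum (f := fun C : Finset (Fin n × Bool) => C.card)
        (fun _ _ => Nat.zero_le _) (hDmem t h1 h2).1).trans (hs t (by omega))
    -- a true wide clause followed by a false one
    have hD : ∀ t, u < t → t < v → ∀ r' : Finset (Fin n × Bool), Cons r' → r ⊆ r' →
        Sat r' (Dd t) → Dd (t + 1) ⊆ r' → Win F (cN + 1) r' := by
      intro t ht1 ht2 r' hr' hrr' hsat hfal
      obtain ⟨m1, m2⟩ := hDmem t ht1 ht2.le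
      obtain ⟨m3, m4⟩ := hDmem (t + 1) (by omega) (by omega)
      have hcontra : Dd (t + 1) ∉ G t := by
        intro hcon
        have := hone t (by omega) _ hcon _ m1 m4 m2
        rw [this] at hfal
        exact not_sat_false hr' hsat hfal
      rcases hst t (by omega) with h | ⟨C0, hC0, h⟩ | ⟨P, hP, Q, hQ, x, hx1, hx2, h⟩
      · exact absurd (h m3) hcontra
      · rcases Finset.mem_insert.mp (h m3) with h3 | h3
        · exact ⟨Dd (t + 1), hfal, (Der.ax (cN + 1) (h3 ▸ hC0))⟩
        · exact absurd h3 hcontra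
      · rcases Finset.mem_insert.mp (h m3) with h3 | h3
        · rw [h3] at hfal
          have key := eval_vars (F := F) (d := cN) {x} r' hr' ?_
          · simpa using key
          · intro r'' h4 h5 h6
            have fin : ∀ R ∈ G t, R ⊆ r'' → Win F cN r'' := by
              intro R hR hRr
              by_cases hRw : R.card ≤ w
              · exact hN t ht1 ht2.le r'' h4 (hrr'.trans h5)
                  ⟨R, Finset.mem_filter.mpr ⟨hR, hRw⟩, hRr⟩
              · push Not at hRw
                have := hone t (by omega) R hR _ m1 hRw m2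
                rw [this] at hRr
                exact (not_sat_false h4 (hsat.mono h5) hRr).elim
            rcases h6 x (Finset.mem_singleton_self _) with h7 | h7
            · apply fin P hP
              intro l hl
              by_cases he : l = (x, true)
              · rw [he]; exact h7
              · exact h5 (hfal (Finset.mem_union_left _ (Finset.mem_erase.mpr ⟨he, hl⟩)))
            · apply fin Q hQ
              intro l hl
              by_cases he : l = (x, false)
              · rw [he]; exact h7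
              · exact h5 (hfal (Finset.mem_union_right _ (Finset.mem_erase.mpr ⟨he, hl⟩)))
        · exact absurd h3 hcontra
    -- evaluate the first wide clause
    have hq : ∑ C ∈ ({Dd (u + 1)} : Finset (Finset (Fin n × Bool))), C.card ≤ s := by
      rw [Finset.sum_singleton]
      exact hDsize (u + 1) (by omega) (by omega)
    refine eval_clauses {Dd (u + 1)} s hq r hr ?_
    intro r1 hr1 hrr1 hdec
    rcases hdec _ (Finset.mem_singleton_self _) with hsat | hfal
    · -- the game on the negated unit clauses, backwards in time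
      refine agL (fun i => Un (Dd (v - i))) (v - u - 1) (cN + 1) r1 (by omega) ?_ ?_ hr1 ?_ ?_ ?_
      · intro i hi
        exact (un_size _).trans (hDsize (v - i) (by omega) (by omega))
      · intro i _ C' hC'
        exact (un_width hC').le
      · show ∀ C' ∈ Un (Dd (v - 0)), Sat r1 C'
        rw [un_good, Nat.sub_zero, hDv]
        exact hCr.trans hrr1
      · show ∃ C' ∈ Un (Dd (v - (v - u - 1))), C' ⊆ r1
        rw [un_bad]
        have : v - (v - u - 1) = u + 1 := by omega
        rw [this]
        exact hsat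
      · intro a r2 ha hr2 hrr2 h3 h4
        have h3' : Dd (v - a) ⊆ r2 := un_good.mp h3
        have h4' : Sat r2 (Dd (v - (a + 1))) := un_bad.mp h4
        have e : v - a = v - (a + 1) + 1 := by omega
        rw [e] at h3'
        exact hD (v - (a + 1)) (by omega) (by omega) r2 hr2 (hrr1.trans hrr2) h4' h3'
    · exact (leaf_g (hst u (by omega)) hr1 (hg.mono hrr1)
        ⟨Dd (u + 1), (hDmem (u + 1) (by omega) (by omega)).1, hfal⟩).mono (Nat.zero_le _)

end Pool.Agent.T9h7.RE
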