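import Pool.Agent.T9h7.RE.Split

/-!
The recursive strategy.
-/

set_option autoImplicit false

namespace Pool.Agent.T9h7.RE

open Pool.Agent.T9h7.RD

variable {n : ℕ}

/-- the clause leads to a restart of scale k -/
def Rs (M : ℕ → Finset (Finset (Fin n × Bool))) (T η : ℕ) (ε : ℝ) (k : ℕ) (x : St n)
    (C : Finset (Fin n × Bool)) : Prop :=
  ∃ t, x.a < t ∧ t ≤ x.b ∧ C ∈ M t ∧ Inv M T η ε ⟨x.a, t, x.nA, x.nI, x.nB + 2 ^ k, x.z⟩

/-- link -/
def Lk (M : ℕ → Finset (Finset (Fin n × Bool))) (T η : ℕ) (ε : ℝ) (k : ℕ)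
    (r : Finset (Fin n × Bool)) (x y : St n) : Prop :=
  ∀ C ∈ M y.a, Sat r C ∨ C ∈ M x.a ∨ Rs M T η ε k x C

theorem Lk.mono {M : ℕ → Finset (Finset (Fin n × Bool))} {T η : ℕ} {ε : ℝ} {k : ℕ}
    {r r' : Finset (Fin n × Bool)} {x y : St n} (h : Lk M T η ε k r x y) (hr : r ⊆ r') :
    Lk M T η ε k r' x y := by
  intro C hC
  rcases h C hC with h | h
  · exact Or.inl (h.mono hr)
  · exact Or.inr h

/-- the size condition -/
def Sz (M : ℕ → Finset (Finset (Fin n × Bool))) (H J k : ℕ) (φ : ℕ → Fr n) (x y : St n) : Prop :=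
  ∀ j, k < j → j ≤ J → (y.a = x.a ∨ ∑ C ∈ M y.a \ (φ j).Ea, C.card ≤ H * 2 ^ j)

/-- the output of a block of scale k -/
structure Out (M : ℕ → Finset (Finset (Fin n × Bool))) (T η H J : ℕ) (ε : ℝ) (k : ℕ)
    (φ : ℕ → Fr n) (r : Finset (Fin n × Bool)) (x y : St n) : Prop where
  inv : Inv M T η ε y
  bad : Bad M r y.b
  lk : Lk M T η ε k r x y
  cI : x.nI ≤ y.nI
  cB : x.nB ≤ y.nB
  cS : y.nI + y.nB ≤ x.nI + x.nB + 2 ^ k
  pr : y.nA + y.nI + y.nB = x.nA + x.nI + x.nB + 2 ^ k ∨ y.b = y.a + 1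
  fr : ∀ j, k < j → j ≤ J → LOK M ε j (φ j) y
  sz : Sz M H J k φ x y

/-- the state inside a block of scale k+1 -/
structure Mid (M : ℕ → Finset (Finset (Fin n × Bool))) (T η H J : ℕ) (ε : ℝ) (k : ℕ)
    (φ : ℕ → Fr n) (r : Finset (Fin n × Bool)) (x y : St n) : Prop where
  inv : Inv M T η ε y
  bad : Bad M r y.b
  lk : Lk M T η ε (k + 1) r x y
  cI : x.nI ≤ y.nI
  cB : x.nB ≤ y.nB
  fr : ∀ j, k < j → j ≤ J → LOK M ε j (φ j) y
  sz : Sz M H J (k + 1) φ x y

theorem run {F : Finset (Finset (Fin n × Bool))} {M : ℕ → Finset (Finset (Fin n × Bool))}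
    {T η H J : ℕ} {ε : ℝ} (he0 : 0 < ε) (heJ : ε * 2 ^ J ≤ 1) (hH : H = 22 * (J + 1) * η)
    (hne : ∀ t, 0 < t → t < T → (M t).Nonempty) :
    ∀ k : ℕ, k ≤ J → ∀ (d : ℕ) (φ : ℕ → Fr n) (x : St n) (r : Finset (Fin n × Bool)), Cons r →
      Inv M T η ε x → x.a + 2 ≤ x.b → Bad M r x.b →
      (∀ j, k < j → j ≤ J → LOK M ε j (φ j) x ∧
        x.nI + x.nB + 2 ^ k ≤ (φ j).cI + (φ j).cB + 2 ^ j) →
      (∀ (y : St n) (r' : Finset (Fin n × Bool)), Cons r' → r ⊆ r' →
        Out M T η H J ε k φ r' x y → Win F d r') →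
      (∀ r' : Finset (Fin n × Bool), Cons r' → r ⊆ r' → Bad M r' x.a → Win F d r') →
      Win F (d + 2 ^ (k + 1) * H * (k + 1)) r := by
  classical
  have hpow : ∀ j ≤ J, ε * (2 : ℝ) ^ j ≤ 1 := by
    intro j hj
    refine le_trans ?_ heJ
    exact mul_le_mul_of_nonneg_left (pow_le_pow_right₀ (by norm_num) hj) he0.le
  intro k
  induction k with
  | zero =>
    intro _ d φ x r hr hx hL hb hφ K1 K2
    obtain ⟨Ea, hEa, hLOK⟩ := early 0 he0 (hpow 0 (Nat.zero_le _)) hne x hx hL
    obtain ⟨p, q, hap, hpq, hqb, hcp, hcq, hQ, hP, z', hI, hIL⟩ :=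
      split he0 heJ hH (Function.update φ 0 ⟨Ea, x.nI, x.nB⟩) x hx hL (by
        intro j hj
        by_cases h : j = 0
        · subst h
          simp only [Function.update_self]
          exact ⟨hLOK, by simp⟩
        · rw [Function.update_of_ne h]
          have := hφ j (by omega) hj
          exact ⟨this.1, by simpa using this.2⟩)
    have hupd : ∀ j, 0 < j → Function.update φ 0 ⟨Ea, x.nI, x.nB⟩ j = φ j := fun j hj =>
      Function.update_of_ne (by omega) _ _
    have hRs : ∀ C ∈ Ea, Rs M T η ε 0 x C := by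
      intro C hC
      obtain ⟨t, h1, h2, h3, h4⟩ := hEa C hC
      exact ⟨t, h1, h2, h3, h4⟩
    -- the new gap (p, q)
    have outI : ∀ r' : Finset (Fin n × Bool), Bad M r' q →
        (p = x.a ∨ ∀ C ∈ M p \ Ea, Sat r' C) →
        Out M T η H J ε 0 φ r' x ⟨p, q, x.nA, x.nI + 1, x.nB, z'⟩ := by
      intro r' h1 h2
      refine ⟨hI, h1, ?_, by simp only; omega, by simp only; omega, by simp only; omega,
        Or.inl (by simp only; omega), ?_, ?_⟩
      · intro C hC
        simp only at hC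
        rcases h2 with h2 | h2
        · rw [h2] at hC; exact Or.inr (Or.inl hC)
        · by_cases hCE : C ∈ Ea
          · exact Or.inr (Or.inr (hRs C hCE))
          · exact Or.inl (h2 C (Finset.mem_sdiff.mpr ⟨hC, hCE⟩))
      · intro j hj hjJ
        have := hIL j hjJ
        rw [hupd j hj] at this
        exact this
      · intro j hj hjJ
        simp only
        by_cases h : p = x.a
        · exact Or.inl h
        · right
          have := hcp (by omega) j hjJ
          rw [hupd j hj] at this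
          exact this
    have partP : ∀ r' : Finset (Fin n × Bool), Cons r' → r ⊆ r' → Bad M r' q →
        Win F (d + H) r' := by
      intro r1 hr1 hrr1 hbq
      by_cases hpa : p = x.a
      · exact (K1 _ r1 hr1 hrr1 (outI r1 hbq (Or.inl hpa))).mono (by omega)
      · have hap' : x.a < p := by omega
        have hcp0 := hcp hap' 0 (Nat.zero_le _)
        simp only [Function.update_self, pow_zero, mul_one] at hcp0
        refine eval_clauses (M p \ Ea) H hcp0 r1 hr1 ?_
        intro r2 hr2 hrr2 hdec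
        by_cases hall : ∀ C ∈ M p \ Ea, Sat r2 C
        · exact K1 _ r2 hr2 (hrr1.trans hrr2) (outI r2 (hbq.mono hrr2) (Or.inr hall))
        · push Not at hall
          obtain ⟨C, hC, hns⟩ := hall
          have hCf := (hdec C hC).resolve_left hns
          refine K1 ⟨x.a, p, x.nA + 1, x.nI, x.nB, x.z⟩ r2 hr2 (hrr1.trans hrr2) ?_
          refine ⟨hP hap', ⟨C, (Finset.mem_sdiff.mp hC).1, hCf⟩, ?_, le_refl _, le_refl _,
            by simp only; omega, Or.inl (by simp only; omega), ?_, ?_⟩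
          · intro C hC
            exact Or.inr (Or.inl hC)
          · intro j hj hjJ
            exact (hφ j hj hjJ).1.sub (le_refl _) (by omega) (le_refl _)
          · intro j hj hjJ
            exact Or.inl rfl
    have e : d + 2 ^ (0 + 1) * H * (0 + 1) = d + H + H := by ring
    rw [e]
    by_cases hqb' : q < x.b
    · have hcq0 := hcq hqb' 0 (Nat.zero_le _)
      simp only [Function.update_self, pow_zero, mul_one] at hcq0
      refine eval_clauses (M q \ Ea) H hcq0 r hr ?_
      intro r1 hr1 hrr1 hdec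
      by_cases hall : ∀ C ∈ M q \ Ea, Sat r1 C
      · refine (K1 ⟨q, x.b, x.nA + 1, x.nI, x.nB, x.z⟩ r1 hr1 hrr1 ?_).mono (by omega)
        refine ⟨hQ hqb', hb.mono hrr1, ?_, le_refl _, le_refl _,
          by simp only; omega, Or.inl (by simp only; omega), ?_, ?_⟩
        · intro C hC
          simp only at hC
          by_cases hCE : C ∈ Ea
          · exact Or.inr (Or.inr (hRs C hCE))
          · exact Or.inl (hall C (Finset.mem_sdiff.mpr ⟨hC, hCE⟩))
        · intro j hj hjJ
          exact (hφ j hj hjJ).1.sub (by omega) (le_refl _) (le_refl _)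
        · intro j hj hjJ
          right
          have := hcq hqb' j hjJ
          rw [hupd j hj] at this
          exact this
      · push Not at hall
        obtain ⟨C, hC, hns⟩ := hall
        have hCf := (hdec C hC).resolve_left hns
        exact partP r1 hr1 hrr1 ⟨C, (Finset.mem_sdiff.mp hC).1, hCf⟩
    · have hqe : q = x.b := by omega
      subst hqe
      exact (partP r hr (subset_refl _) hb).mono (by omega)
  | succ k ih =>
    intro hkJ d φ G r hr hG hL hb hφ K1 K2
    have hkJ' : k ≤ J := by omega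
    obtain ⟨Ea, hEa, hLOK⟩ := early (k + 1) he0 (hpow (k + 1) hkJ) hne G hG hL
    set φ' : ℕ → Fr n := Function.update φ (k + 1) ⟨Ea, G.nI, G.nB⟩ with hφ'
    have hupd : ∀ j, k + 1 < j → φ' j = φ j := fun j hj =>
      Function.update_of_ne (by omega) _ _
    have hself : φ' (k + 1) = ⟨Ea, G.nI, G.nB⟩ := Function.update_self _ _ _
    have hRs : ∀ C ∈ Ea, Rs M T η ε (k + 1) G C := by
      intro C hC
      obtain ⟨t, h1, h2, h3, h4⟩ := hEa C hC
      exact ⟨t, h1, h2, h3, h4⟩
    have hpow2 : 2 ^ (k + 1) = 2 ^ k + 2 ^ k := by ring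
    have hpk : 0 < 2 ^ k := by positivity
    -- a restart of the big block
    have hRestart : ∀ (r' : Finset (Fin n × Bool)) (C : Finset (Fin n × Bool)), Cons r' → r ⊆ r' →
        C ⊆ r' → Rs M T η ε (k + 1) G C → Win F d r' := by
      intro r' C h1 h2 h3 ⟨t, ht1, ht2, hCt, hInv⟩
      refine K1 _ r' h1 h2 ⟨hInv, ⟨C, hCt, h3⟩, ?_, le_refl _, Nat.le_add_right _ _, ?_,
        Or.inl ?_, ?_, ?_⟩
      · intro C' hC'
        exact Or.inr (Or.inl hC')
      · simp only; omega
      · simp only; omega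
      · intro j hj hjJ
        exact (hφ j hj hjJ).1.sub (le_refl _) ht2 (Nat.le_add_right _ _)
      · intro j hj hjJ
        exact Or.inl rfl
    -- a false clause in the start of a linked state
    have hBadStart : ∀ (x1 : St n) (r1 r' : Finset (Fin n × Bool)), Cons r' → r ⊆ r' → r1 ⊆ r' →
        Mid M T η H J ε k φ' r1 G x1 → Bad M r' x1.a → Win F d r' := by
      intro x1 r1 r' h1 h2 h3 hmid ⟨C, hC, hCf⟩
      rcases hmid.lk C hC with h | h | h
      · exact (not_sat_false h1 (h.mono h3) hCf).elim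
      · exact K2 r' h1 h2 ⟨C, h, hCf⟩
      · exact hRestart r' C h1 h2 hCf h
    -- one iteration
    have iter : ∀ (d' : ℕ), d ≤ d' → ∀ (x1 : St n) (r1 : Finset (Fin n × Bool)), Cons r1 →
        r ⊆ r1 → Mid M T η H J ε k φ' r1 G x1 → x1.a + 2 ≤ x1.b →
        (∀ j, k < j → j ≤ J → x1.nI + x1.nB + 2 ^ k ≤ (φ' j).cI + (φ' j).cB + 2 ^ j) →
        (∀ (y : St n) (r' : Finset (Fin n × Bool)), Cons r' → r1 ⊆ r' →
          Mid M T η H J ε k φ' r' G y → x1.nI ≤ y.nI → x1.nB ≤ y.nB →
          y.nI + y.nB ≤ x1.nI + x1.nB + 2 ^ k →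
          (y.nA + y.nI + y.nB = x1.nA + x1.nI + x1.nB + 2 ^ k ∨ y.b = y.a + 1) →
          Win F d' r') →
        Win F (d' + H * 2 ^ (k + 1) + 2 ^ (k + 1) * H * (k + 1)) r1 := by
      intro d' hd' x1 r1 hr1 hrr1 hmid hL1 hbud K
      refine ih hkJ' (d' + H * 2 ^ (k + 1)) φ' x1 r1 hr1 hmid.inv hL1 hmid.bad ?_ ?_ ?_
      · intro j hj hjJ
        exact ⟨hmid.fr j hj hjJ, hbud j hj hjJ⟩
      · intro y r2 hr2 hrr2 hout
        -- the sizes of the new state relative to G
        have hszy : Sz M H J (k + 1) φ' G y := by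
          intro j hj hjJ
          rcases hout.sz j (by omega) hjJ with h | h
          · rw [h]; exact hmid.sz j hj hjJ
          · exact Or.inr h
        rcases hout.sz (k + 1) (by omega) hkJ with hsame | hsize
        · refine (K y r2 hr2 hrr2 ⟨hout.inv, hout.bad, ?_, hmid.cI.trans hout.cI,
            hmid.cB.trans hout.cB, hout.fr, hszy⟩ hout.cI hout.cB hout.cS hout.pr).mono (by omega)
          intro C hC
          rw [hsame] at hC
          exact (hmid.lk.mono hrr2) C hC
        · rw [hself] at hsize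
          simp only at hsize
          refine eval_clauses (M y.a \ Ea) (H * 2 ^ (k + 1)) hsize r2 hr2 ?_
          intro r3 hr3 hrr3 hdec
          by_cases hall : ∀ C ∈ M y.a \ Ea, Sat r3 C
          · refine K y r3 hr3 (hrr2.trans hrr3) ⟨hout.inv, hout.bad.mono hrr3, ?_,
              hmid.cI.trans hout.cI, hmid.cB.trans hout.cB, hout.fr, hszy⟩
              hout.cI hout.cB hout.cS hout.pr
            intro C hC
            by_cases hCE : C ∈ Ea
            · exact Or.inr (Or.inr (hRs C hCE))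
            · exact Or.inl (hall C (Finset.mem_sdiff.mpr ⟨hC, hCE⟩))
          · push Not at hall
            obtain ⟨C, hC, hns⟩ := hall
            have hCf := (hdec C hC).resolve_left hns
            rcases hout.lk C (Finset.mem_sdiff.mp hC).1 with h | h | ⟨t, ht1, ht2, hCt, hInv⟩
            · exact (not_sat_false hr3 (h.mono hrr3) hCf).elim
            · exact (hBadStart x1 r1 r3 hr3 (hrr1.trans (hrr2.trans hrr3)) (hrr2.trans hrr3) hmid
                ⟨C, h, hCf⟩).mono hd'
            · refine K _ r3 hr3 (hrr2.trans hrr3) ⟨hInv, ⟨C, hCt, hCf⟩, ?_, hmid.cI, ?_, ?_, ?_⟩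
                (le_refl _) (Nat.le_add_right _ _) ?_ (Or.inl ?_)
              · intro C' hC'
                exact (hmid.lk.mono (hrr2.trans hrr3)) C' hC'
              · have := hmid.cB; simp only; omega
              · intro j hj hjJ
                exact (hmid.fr j hj hjJ).sub (le_refl _) ht2 (Nat.le_add_right _ _)
              · intro j hj hjJ
                exact hmid.sz j hj hjJ
              · simp only; omega
              · simp only; omega
      · intro r2 hr2 hrr2 hbs
        exact (hBadStart x1 r1 r2 hr2 (hrr1.trans hrr2) hrr2 hmid hbs).mono (by omega)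
    have hfrG : ∀ j, k < j → j ≤ J → LOK M ε j (φ' j) G ∧
        G.nI + G.nB + 2 ^ (k + 1) ≤ (φ' j).cI + (φ' j).cB + 2 ^ j := by
      intro j hj hjJ
      by_cases h : j = k + 1
      · subst h
        rw [hself]
        exact ⟨hLOK, le_refl _⟩
      · rw [hupd j (by omega)]
        exact hφ j (by omega) hjJ
    have hmidG : Mid M T η H J ε k φ' r G G := by
      refine ⟨hG, hb, fun C hC => Or.inr (Or.inl hC), le_refl _, le_refl _,
        fun j hj hjJ => (hfrG j hj hjJ).1, fun j _ _ => Or.inl rfl⟩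
    have hcost : d + 2 ^ (k + 1 + 1) * H * (k + 1 + 1)
        = (d + H * 2 ^ (k + 1) + 2 ^ (k + 1) * H * (k + 1)) + H * 2 ^ (k + 1)
          + 2 ^ (k + 1) * H * (k + 1) := by ring
    rw [hcost]
    -- to the output of the big block
    have hfinal : ∀ (y : St n) (r' : Finset (Fin n × Bool)), Cons r' → r ⊆ r' →
        Mid M T η H J ε k φ' r' G y → y.nI + y.nB ≤ G.nI + G.nB + 2 ^ (k + 1) →
        (y.nA + y.nI + y.nB = G.nA + G.nI + G.nB + 2 ^ (k + 1) ∨ y.b = y.a + 1) →
        Win F d r' := by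
      intro y r' h1 h2 hmid h3 h4
      refine K1 y r' h1 h2 ⟨hmid.inv, hmid.bad, hmid.lk, hmid.cI, hmid.cB, h3, h4, ?_, ?_⟩
      · intro j hj hjJ
        have := hmid.fr j (by omega) hjJ
        rw [hupd j hj] at this
        exact this
      · intro j hj hjJ
        have := hmid.sz j hj hjJ
        rw [hupd j hj] at this
        exact this
    refine iter _ (by omega) G r hr (subset_refl _) hmidG hL ?_ ?_
    · intro j hj hjJ
      have := (hfrG j hj hjJ).2
      omega
    · intro y1 r1 hr1 hrr1 hmid1 c1 c2 c3 c4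
      by_cases hfin : y1.b = y1.a + 1
      · exact (hfinal y1 r1 hr1 hrr1 hmid1 (by omega) (Or.inr hfin)).mono (by omega)
      · have hlt := hmid1.inv.lt
        have c4' := c4.resolve_right hfin
        refine iter d (le_refl _) y1 r1 hr1 hrr1 hmid1 (by omega) ?_ ?_
        · intro j hj hjJ
          have := (hfrG j hj hjJ).2
          omega
        · intro y2 r2 hr2 hrr2 hmid2 k1 k2 k3 k4
          refine hfinal y2 r2 hr2 (hrr1.trans hrr2) hmid2 (by omega) ?_
          rcases k4 with k4 | k4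
          · left; omega
          · exact Or.inr k4

/-- the game is won after at most X / 2^J + 1 blocks of scale J -/
theorem game {F : Finset (Finset (Fin n × Bool))} {M : ℕ → Finset (Finset (Fin n × Bool))}
    {T s η H J X : ℕ} {ε : ℝ} (hM : IsRef F T M) (hs : ∀ t ≤ T, ∑ C ∈ M t, C.card ≤ s)
    (he0 : 0 < ε) (heJ : ε * 2 ^ J ≤ 1) (hH : H = 22 * (J + 1) * η)
    (hne : ∀ t, 0 < t → t < T → (M t).Nonempty)
    (hbd : ∀ σ : St n, Inv M T η ε σ → σ.a + 2 ≤ σ.b → σ.nA + σ.nI + σ.nB ≤ X) :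
    ∀ (N : ℕ) (r : Finset (Fin n × Bool)) (σ : St n), Cons r → Inv M T η ε σ → Good M r σ.a →
      Bad M r σ.b → (X - (σ.nA + σ.nI + σ.nB)) / 2 ^ J + 1 ≤ N →
      Win F (N * (2 ^ (J + 1) * H * (J + 1) + s)) r := by
  intro N
  induction N with
  | zero => intro r σ _ _ _ _ h; exact absurd h (Nat.not_succ_le_zero _)
  | succ N ih =>
    intro r x hr hx hg hb hN
    have hfinish : ∀ (d : ℕ) (r' : Finset (Fin n × Bool)) (y : St n), Cons r' → Inv M T η ε y →
        Good M r' y.a → Bad M r' y.b → y.b = y.a + 1 → Win F d r' := by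
      intro d r' y h1 h2 h3 h4 h5
      rw [h5] at h4
      exact (leaf hM h1 (by have := h2.bT; omega) h3 h4).mono (Nat.zero_le _)
    by_cases hL : x.a + 2 ≤ x.b
    swap
    · have hlt := hx.lt
      exact hfinish _ r x hr hx hg hb (by omega)
    have next : ∀ (r' : Finset (Fin n × Bool)) (y : St n), Cons r' → Inv M T η ε y →
        Good M r' y.a → Bad M r' y.b →
        (y.nA + y.nI + y.nB = x.nA + x.nI + x.nB + 2 ^ J ∨ y.b = y.a + 1) →
        Win F (N * (2 ^ (J + 1) * H * (J + 1) + s)) r' := by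
      intro r' y h1 h2 h3 h4 h5
      by_cases hfin : y.b = y.a + 1
      · exact hfinish _ r' y h1 h2 h3 h4 hfin
      · have h6 := h5.resolve_right hfin
        have hlt := h2.lt
        have h7 := hbd y h2 (by omega)
        apply ih r' y h1 h2 h3 h4
        have hpJ : 0 < 2 ^ J := by positivity
        have e3 : (X - (x.nA + x.nI + x.nB)) / 2 ^ J = (X - (y.nA + y.nI + y.nB)) / 2 ^ J + 1 := by
          have : X - (x.nA + x.nI + x.nB) = (X - (y.nA + y.nI + y.nB)) + 2 ^ J := by omega
          rw [this, Nat.add_div_right _ (by positivity)]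
        rw [e3] at hN
        omega
    have hcost : (N + 1) * (2 ^ (J + 1) * H * (J + 1) + s)
        = (N * (2 ^ (J + 1) * H * (J + 1) + s) + s) + 2 ^ (J + 1) * H * (J + 1) := by ring
    rw [hcost]
    refine run he0 heJ hH hne J (le_refl _) (N * (2 ^ (J + 1) * H * (J + 1) + s) + s)
      (fun _ => ⟨∅, 0, 0⟩) x r hr hx hL hb (fun j h1 h2 => absurd h2 (by omega)) ?_ ?_
    · intro y r1 hr1 hrr1 hout
      refine eval_clauses (M y.a) s (hs _ (by have h1 := hout.inv.lt; have h2 := hout.inv.bT; omega))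
        r1 hr1 ?_
      intro r2 hr2 hrr2 hdec
      by_cases hgg : ∀ C ∈ M y.a, Sat r2 C
      · exact next r2 y hr2 hout.inv hgg (hout.bad.mono hrr2) hout.pr
      · push Not at hgg
        obtain ⟨C, hC, hns⟩ := hgg
        have hCf := (hdec C hC).resolve_left hns
        rcases hout.lk C hC with h | h | ⟨t, ht1, ht2, hCt, hInv⟩
        · exact (not_sat_false hr2 (h.mono hrr2) hCf).elim
        · exact (not_sat_false hr2 ((hg C h).mono (hrr1.trans hrr2)) hCf).elim
        · refine next r2 _ hr2 hInv (hg.mono (hrr1.trans hrr2)) ⟨C, hCt, hCf⟩ (Or.inl ?_)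
          simp only; omega
    · intro r1 hr1 hrr1 ⟨C, hC, hCf⟩
      exact (not_sat_false hr1 ((hg C hC).mono hrr1) hCf).elim

end Pool.Agent.T9h7.RE
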