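import Pool.Agent.T9h7.RE.Spec3
import Pool.Agent.T9h7.RE.Rec

/-!
A true configuration and a false configuration joined by a segment: bisection; the game on macro
steps.
-/

set_option autoImplicit false

namespace Pool.Agent.T9h7.RE

open Pool.Agent.T9h7.RD

variable {n : ℕ}

/-- a true configuration next to a false one: a clause of F is falsified -/
theorem leaf_step {F A B : Finset (Finset (Fin n × Bool))} (h0 : Stp F A B)
    {r : Finset (Fin n × Bool)} (hr : Cons r) (hg : ∀ C ∈ A, Sat r C) (hb : ∃ C ∈ B, C ⊆ r) :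
    Win F 0 r := by
  obtain ⟨C, hC, hCr⟩ := hb
  rcases h0 with ⟨D, hD, h⟩ | ⟨P, hA, Q, hB, v, hv1, hv2, h⟩ | h
  · rw [h, Finset.mem_insert] at hC
    rcases hC with rfl | hC
    · exact ⟨C, hCr, Der.ax 0 hD⟩
    · exact (not_sat_false hr (hg C hC) hCr).elim
  · rw [h, Finset.mem_insert] at hC
    rcases hC with rfl | hC
    · exfalso
      obtain ⟨⟨u, b⟩, h1, h2⟩ := hg P hA
      obtain ⟨⟨u', b'⟩, h1', h2'⟩ := hg Q hB
      have e1 : (v, false) ∈ r := by
        by_cases he : (u, b) = (v, true)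
        · rw [Prod.mk.injEq] at he
          obtain ⟨rfl, rfl⟩ := he
          exact h2
        · exfalso
          have h3 : (u, b) ∈ r := hCr (Finset.mem_union_left _ (Finset.mem_erase.mpr ⟨he, h1⟩))
          cases b
          · exact hr u ⟨h2, h3⟩
          · exact hr u ⟨h3, h2⟩
      have e2 : (v, true) ∈ r := by
        by_cases he : (u', b') = (v, false)
        · rw [Prod.mk.injEq] at he
          obtain ⟨rfl, rfl⟩ := he
          exact h2'
        · exfalso
          have h3 : (u', b') ∈ r := hCr (Finset.mem_union_right _ (Finset.mem_erase.mpr ⟨he, h1'⟩))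
          cases b'
          · exact hr u' ⟨h2', h3⟩
          · exact hr u' ⟨h3, h2'⟩
      exact hr v ⟨e2, e1⟩
    · exact (not_sat_false hr (hg C hC) hCr).elim
  · exact (not_sat_false hr (hg C (h hC)) hCr).elim

theorem not_good {M : ℕ → Finset (Finset (Fin n × Bool))} {r : Finset (Fin n × Bool)} {a : ℕ}
    (hdec : ∀ C ∈ M a, Sat r C ∨ C ⊆ r) (h : ¬ Good M r a) : Bad M r a := by
  unfold Good at h
  push Not at h
  obtain ⟨C, hC, hns⟩ := h
  exact ⟨C, hC, (hdec C hC).resolve_left hns⟩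

/-- bisection -/
theorem bisect {F : Finset (Finset (Fin n × Bool))} {M : ℕ → Finset (Finset (Fin n × Bool))}
    {s g : ℕ} (hs : ∀ i ≤ g, ∑ C ∈ M i, C.card ≤ s) (hst : ∀ i < g, Stp F (M i) (M (i + 1))) :
    ∀ (k i j : ℕ) (r : Finset (Fin n × Bool)), Cons r → j ≤ i + 2 ^ k → i < j → j ≤ g →
      Good M r i → Bad M r j → Win F (k * s) r := by
  intro k
  induction k with
  | zero =>
    intro i j r hr h1 h2 h3 hg hb
    have : j = i + 1 := by simp at h1; omega
    subst this
    exact (leaf_step (hst i (by omega)) hr hg hb).mono (Nat.zero_le _)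
  | succ k ih =>
    intro i j r hr h1 h2 h3 hg hb
    have hpow : 2 ^ (k + 1) = 2 * 2 ^ k := by ring
    by_cases hij : j = i + 1
    · subst hij
      exact (leaf_step (hst i (by omega)) hr hg hb).mono (Nat.zero_le _)
    · have e : (k + 1) * s = k * s + s := by ring
      rw [e]
      refine eval_clauses (M (i + (j - i) / 2)) s (hs _ (by omega)) r hr ?_
      intro r' hr' hrr' hdec
      by_cases hgm : Good M r' (i + (j - i) / 2)
      · exact ih (i + (j - i) / 2) j r' hr' (by omega) (by omega) h3 hgm (hb.mono hrr')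
      · exact ih i (i + (j - i) / 2) r' hr' (by omega) (by omega) (by omega) (hg.mono hrr')
          (not_good hdec hgm)

/-- a macro step is resolved with k s queries -/
theorem leaf_seg {F A B : Finset (Finset (Fin n × Bool))} {s L k : ℕ} (h : Seg F s L A B)
    (hk : L + 1 ≤ 2 ^ k) {r : Finset (Fin n × Bool)} (hr : Cons r) (hg : ∀ C ∈ A, Sat r C)
    (hb : ∃ C ∈ B, C ⊆ r) : Win F (k * s) r := by
  obtain ⟨m, hm, P, hP0, hPm, hs, hst⟩ := h
  have hm0 : 0 < m := by
    rcases Nat.eq_zero_or_pos m with h0 | h0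
    · subst h0
      rw [hP0] at hPm
      subst hPm
      obtain ⟨C, hC, hCr⟩ := hb
      exact (not_sat_false hr (hg C hC) hCr).elim
    · exact h0
  refine bisect (M := P) (s := s) (g := m) hs hst k 0 m r hr (by omega) hm0 (le_refl _) ?_ ?_
  · intro C hC
    rw [hP0] at hC
    exact hg C hC
  · obtain ⟨C, hC, hCr⟩ := hb
    exact ⟨C, by rw [hPm]; exact hC, hCr⟩

/-- the game on macro steps -/
theorem game2 {F : Finset (Finset (Fin n × Bool))} {M : ℕ → Finset (Finset (Fin n × Bool))}
    {T s η H J X dl : ℕ} {ε : ℝ}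
    (hleaf : ∀ (a : ℕ) (r : Finset (Fin n × Bool)), a < T → Cons r → Good M r a →
      Bad M r (a + 1) → Win F dl r)
    (hs : ∀ t ≤ T, ∑ C ∈ M t, C.card ≤ s)
    (he0 : 0 < ε) (heJ : ε * 2 ^ J ≤ 1) (hH : H = 22 * (J + 1) * η)
    (hne : ∀ t, 0 < t → t < T → (M t).Nonempty)
    (hbd : ∀ σ : St n, Inv M T η ε σ → σ.a + 2 ≤ σ.b → σ.nA + σ.nI + σ.nB ≤ X) :
    ∀ (N : ℕ) (r : Finset (Fin n × Bool)) (σ : St n), Cons r → Inv M T η ε σ → Good M r σ.a →
      Bad M r σ.b → (X - (σ.nA + σ.nI + σ.nB)) / 2 ^ J + 1 ≤ N →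
      Win F (N * (2 ^ (J + 1) * H * (J + 1) + s) + dl) r := by
  intro N
  induction N with
  | zero => intro r σ _ _ _ _ h; exact absurd h (Nat.not_succ_le_zero _)
  | succ N ih =>
    intro r x hr hx hg hb hN
    have hfinish : ∀ (d : ℕ) (r' : Finset (Fin n × Bool)) (y : St n), dl ≤ d → Cons r' →
        Inv M T η ε y → Good M r' y.a → Bad M r' y.b → y.b = y.a + 1 → Win F d r' := by
      intro d r' y h0 h1 h2 h3 h4 h5
      rw [h5] at h4
      exact (hleaf y.a r' (by have := h2.bT; omega) h1 h3 h4).mono h0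
    by_cases hL : x.a + 2 ≤ x.b
    swap
    · have hlt := hx.lt
      exact hfinish _ r x (Nat.le_add_left _ _) hr hx hg hb (by omega)
    have next : ∀ (r' : Finset (Fin n × Bool)) (y : St n), Cons r' → Inv M T η ε y →
        Good M r' y.a → Bad M r' y.b →
        (y.nA + y.nI + y.nB = x.nA + x.nI + x.nB + 2 ^ J ∨ y.b = y.a + 1) →
        Win F (N * (2 ^ (J + 1) * H * (J + 1) + s) + dl) r' := by
      intro r' y h1 h2 h3 h4 h5
      by_cases hfin : y.b = y.a + 1
      · exact hfinish _ r' y (Nat.le_add_left _ _) h1 h2 h3 h4 hfin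
      · have h6 := h5.resolve_right hfin
        have hlt := h2.lt
        have h7 := hbd y h2 (by omega)
        apply ih r' y h1 h2 h3 h4
        have hpJ : 0 < 2 ^ J := by positivity
        have e3 : (X - (x.nA + x.nI + x.nB)) / 2 ^ J = (X - (y.nA + y.nI + y.nB)) / 2 ^ J + 1 := by
          have : X - (x.nA + x.nI + x.nB) = (X - (y.nA + y.nI + y.nB)) + 2 ^ J := by omega
          rw [this, Nat.add_div_right _ (by positivity)]
        rw [e3] at hN
        omega
    have hcost : (N + 1) * (2 ^ (J + 1) * H * (J + 1) + s) + dl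
        = (N * (2 ^ (J + 1) * H * (J + 1) + s) + dl + s) + 2 ^ (J + 1) * H * (J + 1) := by ring
    rw [hcost]
    refine run he0 heJ hH hne J (le_refl _) (N * (2 ^ (J + 1) * H * (J + 1) + s) + dl + s)
      (fun _ => ⟨∅, 0, 0⟩) x r hr hx hL hb (fun j h1 h2 => absurd h2 (by omega)) ?_ ?_
    · intro y r1 hr1 hrr1 hout
      refine eval_clauses (M y.a) s (hs _ (by have h1 := hout.inv.lt; have h2 := hout.inv.bT; omega))
        r1 hr1 ?_
      intro r2 hr2 hrr2 hdec
      by_cases hgg : ∀ C ∈ M y.a, Sat r2 C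
      · exact next r2 y hr2 hout.inv hgg (hout.bad.mono hrr2) hout.pr
      · push Not at hgg
        obtain ⟨C, hC, hns⟩ := hgg
        have hCf := (hdec C hC).resolve_left hns
        rcases hout.lk C hC with h | h | ⟨t, ht1, ht2, hCt, hInv⟩
        · exact (not_sat_false hr2 (h.mono hrr2) hCf).elim
        · exact (not_sat_false hr2 ((hg C h).mono (hrr1.trans hrr2)) hCf).elim
        · refine next r2 _ hr2 hInv (hg.mono (hrr1.trans hrr2)) ⟨C, hCt, hCf⟩ (Or.inl ?_)
          simp only; omega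
    · intro r1 hr1 hrr1 ⟨C, hC, hCf⟩
      exact (not_sat_false hr1 ((hg C hC).mono hrr1) hCf).elim

end Pool.Agent.T9h7.RE
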