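import Pool.Agent.T9h7.RE.Leaf
import Pool.Agent.T9h7.RE.Main

/-!
Assembly for refutations which return to narrow configurations.
-/

set_option autoImplicit false

namespace Pool.Agent.T9h7.RE

open Pool.Agent.T9h7.RD

variable {n : ℕ}

theorem core2 (hnum : SNum) (hpath : SPath) : ∃ K : ℕ, ∀ (n : ℕ)
    (F : Finset (Finset (Fin n × Bool))) (D s w L τ : ℕ)
    (M : ℕ → Finset (Finset (Fin n × Bool))), IsLeast {d | HasDepth F d} D → IsRef F τ M →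
    (∀ t ≤ τ, ∑ C ∈ M t, C.card ≤ s) →
    (∀ t, t + L ≤ τ → ∃ u, t ≤ u ∧ u ≤ t + L ∧ ∀ C ∈ M u, C.card ≤ w) →
    1 ≤ w → w ≤ s → s ≤ n →
    (D : ℝ) ≤ (K : ℝ) * (s : ℝ) * (w : ℝ) * (Real.log ((n : ℝ) + 2)) ^ 3 +
      ((Nat.log 2 (L + 1) + 1 : ℕ) : ℝ) * (s : ℝ) := by
  obtain ⟨K, hK⟩ := hnum
  refine ⟨K, ?_⟩
  intro n F D s w L τ M0 hD hM0 hs0 hw0 h1w hws hsn
  obtain ⟨T, M, hM0', hMT, hseg, hs, hw, hinj, hemp⟩ := hpath n F s w L τ M0 hM0 hs0 hw0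
  have hTpos : 0 < T := by
    rcases Nat.eq_zero_or_pos T with h | h
    · subst h
      rw [hM0'] at hMT
      simp at hMT
    · exact h
  have hne : ∀ t, 0 < t → t < T → (M t).Nonempty := by
    intro t h1 h2
    rw [Finset.nonempty_iff_ne_empty]
    intro h3
    have := hinj t h2.le 0 (Nat.zero_le _) (by rw [h3, hM0'])
    omega
  have hT : T ≤ (2 * n * s + 1) ^ s :=
    Pool.Agent.T9h69.RD.sCnt n s T M (fun i hi j hj h => hinj i hi.le j hj.le h) hemp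
      (fun i hi => hs i hi.le)
  obtain ⟨J, η, X, hη, hηJ, hab, hfin⟩ := hK n s w T h1w hws hsn hT
  have h2J : (0 : ℝ) < (2 : ℝ) ^ J := by positivity
  have hε0 : (0 : ℝ) < 1 / (2 : ℝ) ^ J := by positivity
  have hεJ : 1 / (2 : ℝ) ^ J * 2 ^ J ≤ 1 := by
    rw [one_div, inv_mul_cancel₀ h2J.ne']
  have hεη : 2 * (s : ℝ) * (1 / (2 : ℝ) ^ J) ≤ (η : ℝ) := by
    rw [mul_one_div, div_le_iff₀ h2J]
    exact_mod_cast hηJ
  have hbd : ∀ σ : St n, Inv M T η (1 / (2 : ℝ) ^ J) σ → σ.a + 2 ≤ σ.b →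
      σ.nA + σ.nI + σ.nB ≤ X := by
    intro σ hσ hab'
    obtain ⟨b1, b2, b3⟩ := Pool.Agent.T9h77.RE.sBnd n M T η s w (1 / (2 : ℝ) ^ J) hε0 hεη hne hs hw
      σ hσ hab'
    exact hab _ _ _ b1 b2 b3
  have hinit : Inv M T η (1 / (2 : ℝ) ^ J) (⟨0, T, 0, 0, 0, fun _ => 0⟩ : St n) := by
    constructor
    · exact hTpos
    · exact le_refl _
    · simp only [Nat.sub_zero, pow_zero, mul_one]; omega
    · simp only [Nat.cast_zero, mul_zero, sub_zero, Real.exp_zero, mul_one]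
      exact W_start M 0 T
    · intro t _ _
      simp
    · intro C
      exact le_refl _
  have hk : L + 1 ≤ 2 ^ (Nat.log 2 (L + 1) + 1) :=
    (Nat.lt_pow_succ_log_self (by norm_num) (L + 1)).le
  have hwin := game2 (F := F) (M := M) (T := T) (s := s) (η := η) (H := 22 * (J + 1) * η) (J := J)
    (X := X) (dl := (Nat.log 2 (L + 1) + 1) * s) (ε := 1 / (2 : ℝ) ^ J)
    (fun a r ha hr hg hb => leaf_seg (hseg a ha) hk hr hg hb)
    hs hε0 hεJ rfl hne hbd (X / 2 ^ J + 2) ∅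
    (⟨0, T, 0, 0, 0, fun _ => 0⟩ : St n) (by intro v hv; simp at hv) hinit
    (by intro C hC; simp only [hM0'] at hC; simp at hC)
    ⟨∅, hMT, by simp⟩
    (by
      simp only [add_zero, Nat.sub_zero]
      omega)
  have hdep := hasDepth_of_win hwin
  have hDle : D ≤ (X / 2 ^ J + 2) * (2 ^ (J + 1) * (22 * (J + 1) * η) * (J + 1) + s)
      + (Nat.log 2 (L + 1) + 1) * s := hD.2 hdep
  have hDle' : (D : ℝ) ≤
      (((X / 2 ^ J + 2) * (2 ^ (J + 1) * (22 * (J + 1) * η) * (J + 1) + s) : ℕ) : ℝ)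
      + ((Nat.log 2 (L + 1) + 1 : ℕ) : ℝ) * (s : ℝ) := by
    exact_mod_cast hDle
  linarith

/-- narrow case w = 0 -/
theorem zero2 (hpath : SPath) {F : Finset (Finset (Fin n × Bool))} {s L τ : ℕ}
    {M0 : ℕ → Finset (Finset (Fin n × Bool))} (hM0 : IsRef F τ M0)
    (hs0 : ∀ t ≤ τ, ∑ C ∈ M0 t, C.card ≤ s)
    (hw0 : ∀ t, t + L ≤ τ → ∃ u, t ≤ u ∧ u ≤ t + L ∧ ∀ C ∈ M0 u, C.card ≤ 0) :
    HasDepth F ((Nat.log 2 (L + 1) + 1) * s) := by
  obtain ⟨T, M, hM0', hMT, hseg, hs, hw, hinj, hemp⟩ := hpath n F s 0 L τ M0 hM0 hs0 hw0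
  have hk : L + 1 ≤ 2 ^ (Nat.log 2 (L + 1) + 1) :=
    (Nat.lt_pow_succ_log_self (by norm_num) (L + 1)).le
  cases T with
  | zero =>
    rw [hM0'] at hMT
    simp at hMT
  | succ T =>
    have h1 : M T = ∅ := by
      by_contra hne
      obtain ⟨C, hC⟩ := Finset.nonempty_iff_ne_empty.mpr hne
      have h2 : C = ∅ := Finset.card_eq_zero.mp (Nat.le_zero.mp (hw T (Nat.le_succ T) C hC))
      subst h2
      exact hemp T (Nat.lt_succ_self T) hC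
    apply hasDepth_of_win
    refine leaf_seg (hseg T (Nat.lt_succ_self T)) hk (by intro v hv; simp at hv) ?_
      ⟨∅, hMT, by simp⟩
    intro C hC
    rw [h1] at hC
    simp at hC

theorem log_window (L : ℕ) :
    (0.69 : ℝ) ≤ Real.log ((L : ℝ) + 2) ∧
    ((Nat.log 2 (L + 1) + 1 : ℕ) : ℝ) ≤ 3 * Real.log ((L : ℝ) + 2) := by
  have hl2 := Real.log_two_gt_d9
  have hL0 : (0 : ℝ) ≤ (L : ℝ) := Nat.cast_nonneg L
  have h1 : Real.log 2 ≤ Real.log ((L : ℝ) + 2) := by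
    apply Real.log_le_log (by norm_num)
    linarith
  refine ⟨by linarith, ?_⟩
  have h2 : 2 ^ Nat.log 2 (L + 1) ≤ L + 1 := Nat.pow_log_le_self 2 (by omega)
  have h3 : (2 : ℝ) ^ Nat.log 2 (L + 1) ≤ (L : ℝ) + 2 := by
    have : ((2 ^ Nat.log 2 (L + 1) : ℕ) : ℝ) ≤ ((L + 1 : ℕ) : ℝ) := by exact_mod_cast h2
    push_cast at this
    linarith
  have h4 := Real.log_le_log (by positivity) h3
  rw [Real.log_pow] at h4
  push_cast
  have h5 : (0 : ℝ) ≤ (Nat.log 2 (L + 1) : ℝ) := Nat.cast_nonneg _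
  nlinarith

theorem main2 (hnum : SNum) (hpath : SPath) : MainBound2 := by
  obtain ⟨K, hK⟩ := core2 hnum hpath
  refine ⟨K + 3, ?_⟩
  intro n F D s w L τ M hD hM hs hw
  obtain ⟨hL1, hL2⟩ := log_window L
  have hn0 : (0 : ℝ) ≤ (n : ℝ) := Nat.cast_nonneg n
  have hlog0 : (0 : ℝ) ≤ Real.log ((n : ℝ) + 2) := Real.log_nonneg (by linarith)
  have hs0 : (0 : ℝ) ≤ (s : ℝ) := Nat.cast_nonneg s
  have hK0 : (0 : ℝ) ≤ (K : ℝ) := Nat.cast_nonneg K
  have hks : ((Nat.log 2 (L + 1) + 1 : ℕ) : ℝ) * (s : ℝ) ≤ 3 * (s : ℝ) * Real.log ((L : ℝ) + 2) := by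
    have := mul_le_mul_of_nonneg_right hL2 hs0
    linarith
  -- the case w ≤ s
  have key : ∀ w' : ℕ, w' ≤ s →
      (∀ t, t + L ≤ τ → ∃ u, t ≤ u ∧ u ≤ t + L ∧ ∀ C ∈ M u, C.card ≤ w') →
      (D : ℝ) ≤ ((K : ℝ) + 3) * (s : ℝ) *
        ((w' : ℝ) * (Real.log ((n : ℝ) + 2)) ^ 3 + Real.log ((L : ℝ) + 2)) := by
    intro w' hws hw'
    have hw0 : (0 : ℝ) ≤ (w' : ℝ) := Nat.cast_nonneg w'
    have t1 : (0 : ℝ) ≤ (s : ℝ) * ((w' : ℝ) * (Real.log ((n : ℝ) + 2)) ^ 3) := by positivity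
    have t2 : (0 : ℝ) ≤ (s : ℝ) * Real.log ((L : ℝ) + 2) := by positivity
    have t3 : (0 : ℝ) ≤ (K : ℝ) * ((s : ℝ) * Real.log ((L : ℝ) + 2)) := by positivity
    rcases Nat.eq_zero_or_pos w' with h0 | hpos
    · subst h0
      have h1 : D ≤ (Nat.log 2 (L + 1) + 1) * s := hD.2 (zero2 hpath hM hs hw')
      have h2 : (D : ℝ) ≤ ((Nat.log 2 (L + 1) + 1 : ℕ) : ℝ) * (s : ℝ) := by exact_mod_cast h1
      have h3 : ((K : ℝ) + 3) * (s : ℝ) *
          (((0 : ℕ) : ℝ) * (Real.log ((n : ℝ) + 2)) ^ 3 + Real.log ((L : ℝ) + 2))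
          = (K : ℝ) * ((s : ℝ) * Real.log ((L : ℝ) + 2)) + 3 * (s : ℝ) * Real.log ((L : ℝ) + 2) := by
        push_cast
        ring
      rw [h3]
      linarith
    · by_cases hsn : s ≤ n
      · have h1 := hK n F D s w' L τ M hD hM hs hw' hpos hws hsn
        have h3 : ((K : ℝ) + 3) * (s : ℝ) *
            ((w' : ℝ) * (Real.log ((n : ℝ) + 2)) ^ 3 + Real.log ((L : ℝ) + 2))
            = (K : ℝ) * (s : ℝ) * (w' : ℝ) * (Real.log ((n : ℝ) + 2)) ^ 3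
              + 3 * ((s : ℝ) * ((w' : ℝ) * (Real.log ((n : ℝ) + 2)) ^ 3))
              + (K : ℝ) * ((s : ℝ) * Real.log ((L : ℝ) + 2))
              + 3 * (s : ℝ) * Real.log ((L : ℝ) + 2) := by ring
        rw [h3]
        linarith
      · push Not at hsn
        have hDn : D ≤ n := hD.2 (hasDepth_of_win (win_all hM))
        have hDs : (D : ℝ) ≤ (s : ℝ) := by exact_mod_cast (by omega : D ≤ s)
        have h2 : (s : ℝ) ≤ 3 * (s : ℝ) * Real.log ((L : ℝ) + 2) := by nlinarith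
        have h3 : ((K : ℝ) + 3) * (s : ℝ) *
            ((w' : ℝ) * (Real.log ((n : ℝ) + 2)) ^ 3 + Real.log ((L : ℝ) + 2))
            = ((K : ℝ) + 3) * ((s : ℝ) * ((w' : ℝ) * (Real.log ((n : ℝ) + 2)) ^ 3))
              + (K : ℝ) * ((s : ℝ) * Real.log ((L : ℝ) + 2))
              + 3 * (s : ℝ) * Real.log ((L : ℝ) + 2) := by ring
        rw [h3]
        have t4 : (0 : ℝ) ≤ ((K : ℝ) + 3) *
            ((s : ℝ) * ((w' : ℝ) * (Real.log ((n : ℝ) + 2)) ^ 3)) := by positivity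
        linarith
  push_cast
  by_cases hws : w ≤ s
  · exact key w hws hw
  · push Not at hws
    have h1 := key s (le_refl _) (fun t ht => by
      obtain ⟨u, hu1, hu2, _⟩ := hw t ht
      refine ⟨u, hu1, hu2, ?_⟩
      intro C hC
      exact (Finset.single_le_sum (f := fun C : Finset (Fin n × Bool) => C.card)
        (fun _ _ => Nat.zero_le _) hC).trans (hs u (by omega)))
    refine h1.trans ?_
    have h2 : (s : ℝ) ≤ (w : ℝ) := by exact_mod_cast hws.le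
    gcongr

end Pool.Agent.T9h7.RE
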