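import Pool.Agent.T9h7.RE.Burst

/-!
Assembly for refutations with at most one wide clause at a time.
-/

set_option autoImplicit false

namespace Pool.Agent.T9h7.RE

open Pool.Agent.T9h7.RD

variable {n : ℕ}

theorem core3 (hnum : SNum) (hpath : SPathG) : ∃ K : ℕ, ∀ (n : ℕ)
    (F : Finset (Finset (Fin n × Bool))) (D s w τ : ℕ)
    (M : ℕ → Finset (Finset (Fin n × Bool))), IsLeast {d | HasDepth F d} D → IsRef F τ M →
    1 ≤ w → (∀ t ≤ τ, ∑ C ∈ M t, C.card ≤ s) →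
    (∀ t < τ, One w (M t) ∨ One w (M (t + 1))) →
    1 ≤ s → s ≤ n →
    (D : ℝ) ≤ 4 * (K : ℝ) * (s : ℝ) * (w : ℝ) * (Real.log ((n : ℝ) + 2)) ^ 3 + 2 * (s : ℝ) := by
  classical
  obtain ⟨K, hK⟩ := ag hnum
  refine ⟨K, ?_⟩
  intro n F D s w τ M0 hD hM0 h1w hs0 hw0 h1s hsn
  obtain ⟨T, G, hG0, hGT, hst, hs, hone, hinj, hemp⟩ := hpath n F s w τ M0 hM0 hs0 hw0
  have hT : T ≤ (2 * n * s + 1) ^ s :=
    Pool.Agent.T9h69.RD.sCnt n s T G hinj hemp (fun i hi => hs i hi.le)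
  obtain ⟨c1, hc1, ag1⟩ := hK n s (min (w + 1) s) T (by omega) (Nat.min_le_right _ _) hsn hT
  obtain ⟨cN, hcN, agN⟩ := hK n s (min w s) T (by omega) (Nat.min_le_right _ _) hsn hT
  obtain ⟨cL, hcL, agL⟩ := hK n s 1 T (le_refl _) h1s hsn hT
  have hsingle : ∀ (A : Finset (Finset (Fin n × Bool))), ∑ C ∈ A, C.card ≤ s →
      ∀ C ∈ A, C.card ≤ s := by
    intro A hA C hC
    exact (Finset.single_le_sum (f := fun C : Finset (Fin n × Bool) => C.card)
      (fun _ _ => Nat.zero_le _) hC).trans hA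
  set P : ℕ → Prop := fun t => ∀ C ∈ G t, C.card ≤ w + 1 with hP
  have hP0 : P 0 := by
    intro C hC
    rw [hG0] at hC
    simp at hC
  have hPT : P T := by
    intro C hC
    rw [hGT, Finset.mem_singleton] at hC
    subst hC
    simp
  set g : ℕ → ℕ := fun t => Nat.findGreatest P t with hg
  have hgle : ∀ t, g t ≤ t := fun t => Nat.findGreatest_le t
  have hgP : ∀ t, P (g t) := fun t => Nat.findGreatest_spec (Nat.zero_le t) hP0
  have hgN : ∀ t k, g t < k → k ≤ t → ¬ P k := fun t k h1 h2 =>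
    Nat.findGreatest_is_greatest h1 h2
  have hgE : ∀ t, P t → g t = t := fun t h =>
    le_antisymm (hgle t) (Nat.le_findGreatest (le_refl t) h)
  have hgS : ∀ t, ¬ P (t + 1) → g (t + 1) = g t := fun t h => Nat.findGreatest_of_not h
  have h0 : Cons (∅ : Finset (Fin n × Bool)) := by intro v hv; simp at hv
  have hwin := ag1 F (fun t => G (g t)) T (cL + (cN + 1) + s) ∅ (le_refl T)
    (fun t ht => hs (g t) ((hgle t).trans ht))
    (fun t ht C hC => le_min (hgP t C hC) (hsingle _ (hs (g t) ((hgle t).trans ht)) C hC))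
    h0
    (by
      intro C hC
      simp only [hgE 0 hP0, hG0] at hC
      simp at hC)
    (by
      refine ⟨∅, ?_, by simp⟩
      simp only [hgE T hPT, hGT]
      exact Finset.mem_singleton_self _)
    (by
      intro a r ha hr _ hgood hbad
      by_cases hp : P (a + 1)
      · have hbad' : Bad G r (a + 1) := by
          obtain ⟨C, hC, hCr⟩ := hbad
          refine ⟨C, ?_, hCr⟩
          simp only [hgE (a + 1) hp] at hC
          exact hC
        refine burst (G := G) (s := s) (w := w) (T := T) hs hone hst ?_ ?_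
          (u := g a) (v := a + 1) (Nat.lt_succ_of_le (hgle a)) ha (hgP a) ?_ hr hgood hbad'
        · intro M T' dl r0 h1 h2 h3 h4 h5 h6 h7
          exact agN F M T' dl r0 h1 h2
            (fun t ht C hC => le_min (h3 t ht C hC) (hsingle _ (h2 t ht) C hC)) h4 h5 h6 h7
        · intro M T' dl r0 h1 h2 h3 h4 h5 h6 h7
          exact agL F M T' dl r0 h1 h2 h3 h4 h5 h6 h7
        · intro t h1 h2
          have h3 := hgN a t h1 (by omega)
          simp only [hP] at h3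
          push Not at h3
          exact h3
      · exfalso
        obtain ⟨C, hC, hCr⟩ := hbad
        simp only [hgS a hp] at hC
        exact not_sat_false hr (hgood C hC) hCr)
  have hDle : D ≤ c1 + (cL + (cN + 1) + s) := hD.2 (hasDepth_of_win hwin)
  have hDle' : (D : ℝ) ≤ (c1 : ℝ) + ((cL : ℝ) + ((cN : ℝ) + 1) + (s : ℝ)) := by
    exact_mod_cast hDle
  have hn0 : (0 : ℝ) ≤ (n : ℝ) := Nat.cast_nonneg n
  have hlog0 : (0 : ℝ) ≤ Real.log ((n : ℝ) + 2) := Real.log_nonneg (by linarith)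
  have hs1 : (1 : ℝ) ≤ (s : ℝ) := by exact_mod_cast h1s
  have hw1 : (1 : ℝ) ≤ (w : ℝ) := by exact_mod_cast h1w
  set L : ℝ := Real.log ((n : ℝ) + 2) with hL
  have hA : (0 : ℝ) ≤ (K : ℝ) * (s : ℝ) := by positivity
  have b1 : (K : ℝ) * (s : ℝ) * ((min (w + 1) s : ℕ) : ℝ) * L ^ 3
      ≤ (K : ℝ) * (s : ℝ) * (2 * (w : ℝ)) * L ^ 3 := by
    have : ((min (w + 1) s : ℕ) : ℝ) ≤ 2 * (w : ℝ) := by
      have h3 : min (w + 1) s ≤ 2 * w := by omega
      exact_mod_cast h3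
    gcongr
  have b2 : (K : ℝ) * (s : ℝ) * ((min w s : ℕ) : ℝ) * L ^ 3
      ≤ (K : ℝ) * (s : ℝ) * (w : ℝ) * L ^ 3 := by
    have : ((min w s : ℕ) : ℝ) ≤ (w : ℝ) := by
      exact_mod_cast Nat.min_le_left w s
    gcongr
  have b3 : (K : ℝ) * (s : ℝ) * ((1 : ℕ) : ℝ) * L ^ 3 ≤ (K : ℝ) * (s : ℝ) * (w : ℝ) * L ^ 3 := by
    have : ((1 : ℕ) : ℝ) ≤ (w : ℝ) := by exact_mod_cast h1w
    gcongr
  have e1 := hc1.trans b1
  have e2 := hcN.trans b2
  have e3 := hcL.trans b3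
  have e4 : (K : ℝ) * (s : ℝ) * (2 * (w : ℝ)) * L ^ 3 = 2 * ((K : ℝ) * (s : ℝ) * (w : ℝ) * L ^ 3) := by
    ring
  have e5 : 4 * (K : ℝ) * (s : ℝ) * (w : ℝ) * L ^ 3 = 4 * ((K : ℝ) * (s : ℝ) * (w : ℝ) * L ^ 3) := by
    ring
  rw [e4] at e1
  rw [e5]
  linarith

theorem main3 (hnum : SNum) (hpath : SPathG) : MainBound3 := by
  obtain ⟨K, hK⟩ := core3 hnum hpath
  refine ⟨4 * K + 8, ?_⟩
  intro n F D s w τ M hD hM h1w hs hw
  have hlog : (0.69 : ℝ) ≤ Real.log ((n : ℝ) + 2) := by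
    have h1 : Real.log 2 ≤ Real.log ((n : ℝ) + 2) := by
      apply Real.log_le_log (by norm_num)
      have : (0 : ℝ) ≤ (n : ℝ) := Nat.cast_nonneg n
      linarith
    have := Real.log_two_gt_d9
    linarith
  have hlog4 : (1 / 4 : ℝ) ≤ (Real.log ((n : ℝ) + 2)) ^ 3 := by
    calc (1 / 4 : ℝ) ≤ (0.69 : ℝ) ^ 3 := by norm_num
      _ ≤ _ := pow_le_pow_left₀ (by norm_num) hlog 3
  have hw1 : (1 : ℝ) ≤ (w : ℝ) := by exact_mod_cast h1w
  have hs0 : (0 : ℝ) ≤ (s : ℝ) := Nat.cast_nonneg s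
  have hK0 : (0 : ℝ) ≤ (K : ℝ) := Nat.cast_nonneg K
  set L : ℝ := Real.log ((n : ℝ) + 2) with hL
  -- s ≤ 4 s w L^3
  have hsw : (s : ℝ) ≤ 4 * ((s : ℝ) * (w : ℝ) * L ^ 3) := by
    have h3 : (s : ℝ) ≤ (s : ℝ) * (w : ℝ) := le_mul_of_one_le_right hs0 hw1
    have h4 : (s : ℝ) * (w : ℝ) * (1 / 4) ≤ (s : ℝ) * (w : ℝ) * L ^ 3 :=
      mul_le_mul_of_nonneg_left hlog4 (by positivity)
    linarith
  have hpos : (0 : ℝ) ≤ (s : ℝ) * (w : ℝ) * L ^ 3 := by positivity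
  have e0 : ((4 * K + 8 : ℕ) : ℝ) * (s : ℝ) * (w : ℝ) * L ^ 3
      = 4 * (K : ℝ) * ((s : ℝ) * (w : ℝ) * L ^ 3) + 8 * ((s : ℝ) * (w : ℝ) * L ^ 3) := by
    push_cast
    ring
  rw [e0]
  have hKp : (0 : ℝ) ≤ 4 * (K : ℝ) * ((s : ℝ) * (w : ℝ) * L ^ 3) := by positivity
  rcases Nat.eq_zero_or_pos s with h0 | h1s
  · have : D = 0 := by
      refine Nat.le_zero.mp (hD.2 (depth_zero hM ?_))
      intro t ht C hC
      exact ((Finset.single_le_sum (f := fun C : Finset (Fin n × Bool) => C.card)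
        (fun _ _ => Nat.zero_le _) hC).trans (hs t ht)).trans h0.le
    rw [this]
    push_cast
    linarith
  · by_cases hsn : s ≤ n
    · have h1 := hK n F D s w τ M hD hM h1w hs hw h1s hsn
      have e1 : 4 * (K : ℝ) * (s : ℝ) * (w : ℝ) * L ^ 3
          = 4 * (K : ℝ) * ((s : ℝ) * (w : ℝ) * L ^ 3) := by ring
      rw [← hL, e1] at h1
      linarith
    · push Not at hsn
      have hDn : D ≤ n := hD.2 (hasDepth_of_win (win_all hM))
      have hDs : (D : ℝ) ≤ (s : ℝ) := by exact_mod_cast (by omega : D ≤ s)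
      linarith

end Pool.Agent.T9h7.RE
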