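import Pool.Agent.T9h7.RD.Game

/-!
Multi-scale version: the potential of a gap with real counters z.
-/

set_option autoImplicit false

namespace Pool.Agent.T9h7.RE

open Pool.Agent.T9h7.RD

variable {n : ℕ}

/-- the clauses which occur strictly between the times a and b -/
def V (M : ℕ → Finset (Finset (Fin n × Bool))) (a b : ℕ) : Finset (Finset (Fin n × Bool)) :=
  (Finset.Ioo a b).biUnion M

/-- the weight of a clause -/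
noncomputable def wt (z : Finset (Fin n × Bool) → ℝ) (C : Finset (Fin n × Bool)) : ℝ :=
  Real.exp (z C) / (2 * (n : ℝ) + 2) ^ C.card

/-- the weight of a gap -/
noncomputable def W (M : ℕ → Finset (Finset (Fin n × Bool))) (z : Finset (Fin n × Bool) → ℝ)
    (a b : ℕ) : ℝ := ∑ C ∈ V M a b, wt z C

/-- a gap together with its counters and weights -/
structure St (n : ℕ) where
  a : ℕ
  b : ℕ
  nA : ℕ
  nI : ℕ
  nB : ℕ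
  z : Finset (Fin n × Bool) → ℝ

/-- the invariants -/
structure Inv (M : ℕ → Finset (Finset (Fin n × Bool))) (T η : ℕ) (ε : ℝ) (σ : St n) : Prop where
  lt : σ.a < σ.b
  bT : σ.b ≤ T
  i1 : (σ.b - σ.a - 1) * 2 ^ σ.nA ≤ T
  i2 : W M σ.z σ.a σ.b ≤ 3 * Real.exp (ε * σ.nI - ε * σ.nB)
  i3 : ∀ t, σ.a < t → t < σ.b → (η : ℝ) * σ.nI ≤ ∑ C ∈ M t, (C.card : ℝ) * σ.z C
  i4 : ∀ C, 0 ≤ σ.z C

/-- piece (BND2). Like SBnd of RD, with a real z >= 0 and weights exp(z C)/(2n+2)^|C|. Take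
t = a + 1, a nonempty configuration strictly inside the gap. For C in M t: exp(z C) / B^|C| = wt z C
≤ W ≤ 3 exp(ε nI), B = 2n+2, so z C ≤ 2 + w log B + ε nI; with i3: η nI ≤ s (2 + w log B) + s ε nI
and s ε ≤ η/2. For nB: B^(-w) ≤ wt z C ≤ W ≤ 3 exp(ε nI - ε nB). 2^nA ≤ T from i1 and
b - a - 1 ≥ 1. -/
def SBnd : Prop := ∀ (n : ℕ) (M : ℕ → Finset (Finset (Fin n × Bool))) (T η s w : ℕ) (ε : ℝ),
  0 < ε → 2 * (s : ℝ) * ε ≤ (η : ℝ) → (∀ t, 0 < t → t < T → (M t).Nonempty) →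
  (∀ t ≤ T, ∑ C ∈ M t, C.card ≤ s) → (∀ t ≤ T, ∀ C ∈ M t, C.card ≤ w) →
  ∀ σ : St n, Inv M T η ε σ → σ.a + 2 ≤ σ.b →
    2 ^ σ.nA ≤ T ∧
    (η : ℝ) * σ.nI ≤ 2 * (s : ℝ) * ((w : ℝ) * Real.log (2 * (n : ℝ) + 2) + 2) ∧
    ε * σ.nB ≤ ε * σ.nI + ((w : ℝ) * Real.log (2 * (n : ℝ) + 2) + 2)

/-- piece (NUM2). J = Nat.log 2 (s / w) (so 2^J ≤ s/w < 2^(J+1) up to rounding), η = 2 s / 2^J + 1
(at most 9 w), X = Nat.log 2 T + (bound for i) + (bound for b): i ≤ 2^J (w L + 2) as η ≥ 2 s / 2^J,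
b ≤ i + 2^J (w L + 2), L = log(2n+2); X / 2^J = O(w log(n+2)), 2^(J+1) (22 (J+1) η) (J+1) + s =
O(s log(n+2)^2). -/
def SNum : Prop := ∃ K : ℕ, ∀ n s w T : ℕ, 1 ≤ w → w ≤ s → s ≤ n → T ≤ (2 * n * s + 1) ^ s →
  ∃ J η X : ℕ, 1 ≤ η ∧ 2 * s ≤ η * 2 ^ J ∧
    (∀ a i b : ℕ, 2 ^ a ≤ T →
      (η : ℝ) * i ≤ 2 * (s : ℝ) * ((w : ℝ) * Real.log (2 * (n : ℝ) + 2) + 2) →
      (1 / (2 : ℝ) ^ J) * b ≤ (1 / (2 : ℝ) ^ J) * i +
        ((w : ℝ) * Real.log (2 * (n : ℝ) + 2) + 2) →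
      a + i + b ≤ X) ∧
    (((X / 2 ^ J + 2) * (2 ^ (J + 1) * (22 * (J + 1) * η) * (J + 1) + s) : ℕ) : ℝ)
      ≤ (K : ℝ) * (s : ℝ) * (w : ℝ) * (Real.log ((n : ℝ) + 2)) ^ 3

end Pool.Agent.T9h7.RE
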