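import Pool.Agent.T9h7.RD.Game

/-!
Refutations which return to narrow configurations: the macro steps; statements of the pieces.
-/

set_option autoImplicit false
open Filter

namespace Pool.Agent.T9h7.RE

open Pool.Agent.T9h7.RD

/-- a legal step -/
def Stp {n : ℕ} (F A B : Finset (Finset (Fin n × Bool))) : Prop :=
  (∃ C ∈ F, B = insert C A) ∨
  (∃ P ∈ A, ∃ Q ∈ A, ∃ v : Fin n, (v, true) ∈ P ∧ (v, false) ∈ Q ∧
    B = insert (P.erase (v, true) ∪ Q.erase (v, false)) A) ∨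
  B ⊆ A

/-- a segment of at most Λ + 1 legal steps from A to B in total space at most s -/
def Seg {n : ℕ} (F : Finset (Finset (Fin n × Bool))) (s Λ : ℕ)
    (A B : Finset (Finset (Fin n × Bool))) : Prop :=
  ∃ m ≤ Λ + 1, ∃ P : ℕ → Finset (Finset (Fin n × Bool)), P 0 = A ∧ P m = B ∧
    (∀ i ≤ m, ∑ C ∈ P i, C.card ≤ s) ∧ ∀ i < m, Stp F (P i) (P (i + 1))

/-- piece (PATH). From a refutation in which every window of Λ + 1 consecutive configurations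
contains one of width at most w: a shortest sequence of narrow configurations joined by segments
(from a narrow time t < τ go to the next narrow time, which is at most t + Λ + 1, or, if
t + Λ + 1 > τ, run to τ (at most Λ steps) and delete everything except the empty clause). Shortest:
no repetition, the empty clause only at the end. -/
def SPath : Prop := ∀ (n : ℕ) (F : Finset (Finset (Fin n × Bool))) (s w Λ τ : ℕ)
  (M : ℕ → Finset (Finset (Fin n × Bool))), IsRef F τ M →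
  (∀ t ≤ τ, ∑ C ∈ M t, C.card ≤ s) →
  (∀ t, t + Λ ≤ τ → ∃ u, t ≤ u ∧ u ≤ t + Λ ∧ ∀ C ∈ M u, C.card ≤ w) →
  ∃ T : ℕ, ∃ M' : ℕ → Finset (Finset (Fin n × Bool)),
    M' 0 = ∅ ∧ (∅ : Finset (Fin n × Bool)) ∈ M' T ∧
    (∀ t < T, Seg F s Λ (M' t) (M' (t + 1))) ∧
    (∀ t ≤ T, ∑ C ∈ M' t, C.card ≤ s) ∧ (∀ t ≤ T, ∀ C ∈ M' t, C.card ≤ w) ∧
    (∀ i ≤ T, ∀ j ≤ T, M' i = M' j → i = j) ∧ (∀ t < T, (∅ : Finset (Fin n × Bool)) ∉ M' t)

/-- the main bound for refutations which return to narrow configurations -/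
def MainBound2 : Prop := ∃ K : ℕ, ∀ (n : ℕ) (F : Finset (Finset (Fin n × Bool)))
    (D s w Λ τ : ℕ) (M : ℕ → Finset (Finset (Fin n × Bool))),
    IsLeast {d | HasDepth F d} D → IsRef F τ M →
    (∀ t ≤ τ, ∑ C ∈ M t, C.card ≤ s) →
    (∀ t, t + Λ ≤ τ → ∃ u, t ≤ u ∧ u ≤ t + Λ ∧ ∀ C ∈ M u, C.card ≤ w) →
    (D : ℝ) ≤ (K : ℝ) * (s : ℝ) *
      ((w : ℝ) * (Real.log ((n : ℝ) + 2)) ^ 3 + Real.log ((Λ : ℝ) + 2))

/-- piece (CORA). S = the maximal total size. If S ≤ 0.69 (log n)^(2c+1): take Λ = 0 and a time with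
a nonempty clause (or τ if S = 0; n large, so S ≤ (log n)^(2c+4)). Otherwise take
Λ = ceil(exp(S/(log n)^(2c+1))) - 2 and w = floor(S/(log n)^(2c+4)); if no window works, MainBound2
and S^2 ≤ D (log n)^(2c) give S ≤ 2 K (log n)^(2c), a contradiction for large n
(log (n+2) ≤ 2 log n, log(Λ+2) ≤ log 2 + S/(log n)^(2c+1)). -/
def SCorA : Prop := MainBound2 → ∀ c : ℕ, ∃ n₀ : ℕ, ∀ n ≥ n₀,
    ∀ (F : Finset (Finset (Fin n × Bool))) (D τ : ℕ) (M : ℕ → Finset (Finset (Fin n × Bool))),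
    IsLeast {d | HasDepth F d} D → IsRef F τ M →
    (∀ t ≤ τ, ((∑ C ∈ M t, C.card : ℕ) : ℝ) ≤ Real.sqrt D * (Real.log n) ^ c) →
    ∃ S : ℕ, (∀ t ≤ τ, ∑ C ∈ M t, C.card ≤ S) ∧ (∃ t ≤ τ, ∑ C ∈ M t, C.card = S) ∧
      ∃ t Λ : ℕ, t + Λ ≤ τ ∧ Real.exp ((S : ℝ) / (Real.log n) ^ (2 * c + 1)) ≤ (Λ : ℝ) + 2 ∧
        ∀ u, t ≤ u → u ≤ t + Λ → ∃ C ∈ M u,
          (S : ℝ) ≤ (C.card : ℝ) * (Real.log n) ^ (2 * c + 4)

/-- piece (CORB). As narrow in RE/Cor.lean (copy it): if s ≤ sqrt(D_n) (log n)^c, then s^2 ≤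
K s (w L^3 + log(Λ+2)) (log n)^(2c) with w ≤ s^(1-δ), log(Λ+2) ≤ s^(1-δ) + 1.1 ≤ 2.1 s^(1-δ)
(s ≥ 1), so s^δ ≤ (log n)^(2c+4), s ≤ (log n)^k, D_n ≤ polylog, a contradiction. -/
def SCorB : Prop := MainBound2 → ∀ (F : (n : ℕ) → Finset (Finset (Fin n × Bool))) (D : ℕ → ℕ),
    (∀ n, IsLeast {d | HasDepth (F n) d} (D n)) →
    (∀ k : ℕ, Tendsto (fun n : ℕ => (D n : ℝ) / Real.log (n : ℝ) ^ k) atTop atTop) →
    ∀ (c : ℕ) (δ : ℝ), 0 < δ → δ ≤ 1 →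
    ∀ᶠ n in atTop, ∀ (τ s w Λ : ℕ) (M : ℕ → Finset (Finset (Fin n × Bool))), IsRef (F n) τ M →
      (∀ t ≤ τ, ∑ C ∈ M t, C.card ≤ s) → (w : ℝ) ≤ (s : ℝ) ^ (1 - δ) →
      (Λ : ℝ) ≤ Real.exp ((s : ℝ) ^ (1 - δ)) →
      (∀ t, t + Λ ≤ τ → ∃ u, t ≤ u ∧ u ≤ t + Λ ∧ ∀ C ∈ M u, C.card ≤ w) →
      Real.sqrt (D n : ℝ) * Real.log (n : ℝ) ^ c < (s : ℝ)

end Pool.Agent.T9h7.RE
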