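import Pool.Agent.T9h7.RE.Pot

/-!
Frames (the early sets of the enclosing blocks), the early set, the multi-scale split.
-/

set_option autoImplicit false

namespace Pool.Agent.T9h7.RE

open Pool.Agent.T9h7.RD

variable {n : ℕ}

theorem wt_pos (z : Finset (Fin n × Bool) → ℝ) (C : Finset (Fin n × Bool)) : 0 < wt z C := by
  unfold wt
  positivity

theorem V_mono (M : ℕ → Finset (Finset (Fin n × Bool))) {a b a' b' : ℕ} (h1 : a' ≤ a)
    (h2 : b ≤ b') : V M a b ⊆ V M a' b' := by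
  apply Finset.biUnion_subset_biUnion_of_subset_left
  intro t ht
  rw [Finset.mem_Ioo] at ht ⊢
  omega

theorem W_mono (M : ℕ → Finset (Finset (Fin n × Bool))) (z : Finset (Fin n × Bool) → ℝ)
    {a b a' b' : ℕ} (h1 : a' ≤ a) (h2 : b ≤ b') : W M z a b ≤ W M z a' b' :=
  Finset.sum_le_sum_of_subset_of_nonneg (V_mono M h1 h2) (fun C _ _ => (wt_pos z C).le)

/-- a frame: the early set and the counters of the enclosing block -/
structure Fr (n : ℕ) where
  Ea : Finset (Finset (Fin n × Bool))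
  cI : ℕ
  cB : ℕ

/-- the late weight -/
noncomputable def late (M : ℕ → Finset (Finset (Fin n × Bool))) (x : St n)
    (Ea : Finset (Finset (Fin n × Bool))) : ℝ := ∑ C ∈ V M x.a x.b \ Ea, wt x.z C

noncomputable def Phi (ε : ℝ) (x : St n) : ℝ := 3 * Real.exp (ε * x.nI - ε * x.nB)

/-- the late weight of scale j is under control -/
structure LOK (M : ℕ → Finset (Finset (Fin n × Bool))) (ε : ℝ) (j : ℕ) (φ : Fr n) (x : St n) :
    Prop where
  hI : φ.cI ≤ x.nI
  hB : φ.cB ≤ x.nB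
  hL : late M x φ.Ea ≤ 3 * Real.exp (ε * φ.cI - ε * φ.cB) *
    (ε * 2 ^ j + ε * Real.exp 1 * ((x.nI : ℝ) - φ.cI))

theorem late_le {M : ℕ → Finset (Finset (Fin n × Bool))} {ε : ℝ} {j : ℕ} {φ : Fr n} {x : St n}
    (he : 0 ≤ ε) (hej : ε * 2 ^ j ≤ 1) (h : LOK M ε j φ x)
    (hb : x.nI + x.nB ≤ φ.cI + φ.cB + 2 ^ j) :
    late M x φ.Ea ≤ 11 * 2 ^ j * ε * Phi ε x := by
  have hI := h.hI
  have hB := h.hB
  have h1 : (x.nI : ℝ) - φ.cI ≤ 2 ^ j := by
    have : x.nI ≤ φ.cI + 2 ^ j := by omega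
    have h : (x.nI : ℝ) ≤ (φ.cI : ℝ) + 2 ^ j := by exact_mod_cast this
    linarith
  have h1' : (0 : ℝ) ≤ (x.nI : ℝ) - φ.cI := by
    have : (φ.cI : ℝ) ≤ (x.nI : ℝ) := by exact_mod_cast hI
    linarith
  have h2 : (x.nB : ℝ) ≤ (φ.cB : ℝ) + 2 ^ j := by
    have : x.nB ≤ φ.cB + 2 ^ j := by omega
    exact_mod_cast this
  have he1 : Real.exp 1 < 2.7182818286 := Real.exp_one_lt_d9
  have he0 : 0 < Real.exp 1 := Real.exp_pos 1
  have h3 : Real.exp (ε * φ.cI - ε * φ.cB) ≤ Real.exp 1 * Real.exp (ε * x.nI - ε * x.nB) := by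
    rw [← Real.exp_add]
    apply Real.exp_le_exp.mpr
    nlinarith
  have hE : 0 < Real.exp (ε * x.nI - ε * x.nB) := Real.exp_pos _
  have h4 : ε * 2 ^ j + ε * Real.exp 1 * ((x.nI : ℝ) - φ.cI) ≤ ε * 2 ^ j * (1 + Real.exp 1) := by
    have : ε * Real.exp 1 * ((x.nI : ℝ) - φ.cI) ≤ ε * Real.exp 1 * 2 ^ j :=
      mul_le_mul_of_nonneg_left h1 (by positivity)
    linarith
  calc late M x φ.Ea
      ≤ 3 * Real.exp (ε * φ.cI - ε * φ.cB) *
        (ε * 2 ^ j + ε * Real.exp 1 * ((x.nI : ℝ) - φ.cI)) := h.hL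
    _ ≤ 3 * (Real.exp 1 * Real.exp (ε * x.nI - ε * x.nB)) * (ε * 2 ^ j * (1 + Real.exp 1)) := by
        apply mul_le_mul (by linarith) h4 (by positivity) (by positivity)
    _ = (Real.exp 1 * (1 + Real.exp 1)) * (2 ^ j * ε * (3 * Real.exp (ε * x.nI - ε * x.nB))) := by
        ring
    _ ≤ 11 * (2 ^ j * ε * (3 * Real.exp (ε * x.nI - ε * x.nB))) := by
        apply mul_le_mul_of_nonneg_right _ (by positivity)
        nlinarith
    _ = 11 * 2 ^ j * ε * Phi ε x := by unfold Phi; ring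

theorem LOK.sub {M : ℕ → Finset (Finset (Fin n × Bool))} {ε : ℝ} {j : ℕ} {φ : Fr n} {x : St n}
    (h : LOK M ε j φ x) {a b nA nB : ℕ} (ha : x.a ≤ a) (hb : b ≤ x.b) (hB : x.nB ≤ nB) :
    LOK M ε j φ ⟨a, b, nA, x.nI, nB, x.z⟩ := by
  refine ⟨h.hI, h.hB.trans hB, le_trans ?_ h.hL⟩
  unfold late
  simp only
  refine Finset.sum_le_sum_of_subset_of_nonneg ?_ (fun C _ _ => (wt_pos x.z C).le)
  exact Finset.sdiff_subset_sdiff (V_mono M ha hb) (Finset.Subset.refl _)

/-- the early set of scale k -/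
theorem early {M : ℕ → Finset (Finset (Fin n × Bool))} {T η : ℕ} {ε : ℝ} (k : ℕ)
    (he0 : 0 < ε) (hek : ε * 2 ^ k ≤ 1) (hne : ∀ t, 0 < t → t < T → (M t).Nonempty)
    (x : St n) (hx : Inv M T η ε x) (hL : x.a + 2 ≤ x.b) :
    ∃ Ea : Finset (Finset (Fin n × Bool)),
      (∀ C ∈ Ea, ∃ t, x.a < t ∧ t ≤ x.b ∧ C ∈ M t ∧
        Inv M T η ε ⟨x.a, t, x.nA, x.nI, x.nB + 2 ^ k, x.z⟩) ∧
      LOK M ε k ⟨Ea, x.nI, x.nB⟩ x := by
  classical
  obtain ⟨a, b, nA, nI, nB, z⟩ := x
  obtain ⟨hlt, hbT, i1, i2, i3, i4⟩ := hx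
  simp only at hlt hbT i1 i2 i3 i4 hL ⊢
  set δ : ℝ := ε * 2 ^ k with hδ
  have hδ0 : 0 < δ := by positivity
  have hW0 : 0 ≤ W M z a b := Finset.sum_nonneg (fun C _ => (wt_pos z C).le)
  have hWpos : 0 < W M z a b := by
    obtain ⟨C, hC⟩ := hne (a + 1) (by omega) (by omega)
    refine Finset.sum_pos (fun C _ => wt_pos z C) ⟨C, ?_⟩
    exact Finset.mem_biUnion.mpr ⟨a + 1, Finset.mem_Ioo.mpr ⟨by omega, by omega⟩, hC⟩
  have hex : ∃ e, a + 1 ≤ e ∧ e < b ∧ W M z a e ≤ (1 - δ) * W M z a b ∧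
      (1 - δ) * W M z a b < W M z a (e + 1) := by
    have hset : ((Finset.Icc (a + 1) b).filter (fun t => W M z a t ≤ (1 - δ) * W M z a b)).Nonempty := by
      refine ⟨a + 1, Finset.mem_filter.mpr ⟨Finset.mem_Icc.mpr ⟨le_refl _, by omega⟩, ?_⟩⟩
      have h0 : W M z a (a + 1) = 0 := by
        unfold W V
        have : Finset.Ioo a (a + 1) = ∅ := by
          ext t; simp only [Finset.mem_Ioo, Finset.notMem_empty, iff_false]; omega
        rw [this]
        simp
      rw [h0]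
      exact mul_nonneg (by linarith) hW0
    obtain ⟨e, he, hmax⟩ := Finset.exists_max_image _ (fun t : ℕ => t) hset
    rw [Finset.mem_filter, Finset.mem_Icc] at he
    have heb : e < b := by
      by_contra hcon
      have : e = b := by omega
      subst this
      have := he.2
      nlinarith
    refine ⟨e, he.1.1, heb, he.2, ?_⟩
    by_contra hcon
    push Not at hcon
    have := hmax (e + 1) (Finset.mem_filter.mpr ⟨Finset.mem_Icc.mpr ⟨by omega, by omega⟩, hcon⟩)
    omega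
  obtain ⟨e, hae, heb, he1', he2'⟩ := hex
  refine ⟨V M a (e + 1), ?_, ?_⟩
  · intro C hC
    unfold V at hC
    rw [Finset.mem_biUnion] at hC
    obtain ⟨t, ht, hCt⟩ := hC
    rw [Finset.mem_Ioo] at ht
    refine ⟨t, ht.1, by omega, hCt, ?_⟩
    constructor
    · exact ht.1
    · simp only; omega
    · simp only
      exact le_trans (Nat.mul_le_mul_right _ (by omega)) i1
    · simp only
      have h1 : W M z a t ≤ W M z a e := W_mono M z (le_refl _) (by omega)
      have h2 : (1 - δ) ≤ Real.exp (-δ) := by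
        have := Real.add_one_le_exp (-δ)
        linarith
      have h3 : Real.exp (ε * (nI : ℝ) - ε * ((nB + 2 ^ k : ℕ) : ℝ))
          = Real.exp (-δ) * Real.exp (ε * (nI : ℝ) - ε * (nB : ℝ)) := by
        rw [← Real.exp_add]
        congr 1
        push_cast
        rw [hδ]
        ring
      rw [h3]
      calc W M z a t ≤ (1 - δ) * W M z a b := h1.trans he1'
        _ ≤ Real.exp (-δ) * W M z a b := mul_le_mul_of_nonneg_right h2 hW0
        _ ≤ Real.exp (-δ) * (3 * Real.exp (ε * (nI : ℝ) - ε * (nB : ℝ))) :=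
            mul_le_mul_of_nonneg_left i2 (Real.exp_pos _).le
        _ = 3 * (Real.exp (-δ) * Real.exp (ε * (nI : ℝ) - ε * (nB : ℝ))) := by ring
    · simp only
      intro u h1 h2
      exact i3 u h1 (by omega)
    · exact i4
  · refine ⟨le_refl _, le_refl _, ?_⟩
    unfold late
    simp only [sub_self, mul_zero, add_zero]
    have hsub : V M a (e + 1) ⊆ V M a b := V_mono M (le_refl _) (by omega)
    have h1 : ∑ C ∈ V M a b \ V M a (e + 1), wt z C = W M z a b - W M z a (e + 1) := by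
      unfold W
      rw [← Finset.sum_sdiff hsub]
      ring
    rw [h1]
    have h2 : W M z a b - W M z a (e + 1) ≤ δ * W M z a b := by nlinarith
    refine h2.trans ?_
    rw [mul_comm δ]
    exact mul_le_mul_of_nonneg_right i2 hδ0.le

/-- the multi-scale split -/
theorem split {M : ℕ → Finset (Finset (Fin n × Bool))} {T η H J : ℕ} {ε : ℝ}
    (he0 : 0 < ε) (heJ : ε * 2 ^ J ≤ 1) (hH : H = 22 * (J + 1) * η) (φ : ℕ → Fr n)
    (x : St n) (hx : Inv M T η ε x) (hL : x.a + 2 ≤ x.b)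
    (hφ : ∀ j ≤ J, LOK M ε j (φ j) x ∧ x.nI + x.nB + 1 ≤ (φ j).cI + (φ j).cB + 2 ^ j) :
    ∃ p q : ℕ, x.a ≤ p ∧ p < q ∧ q ≤ x.b ∧
      (x.a < p → ∀ j ≤ J, ∑ C ∈ M p \ (φ j).Ea, C.card ≤ H * 2 ^ j) ∧
      (q < x.b → ∀ j ≤ J, ∑ C ∈ M q \ (φ j).Ea, C.card ≤ H * 2 ^ j) ∧
      (q < x.b → Inv M T η ε ⟨q, x.b, x.nA + 1, x.nI, x.nB, x.z⟩) ∧
      (x.a < p → Inv M T η ε ⟨x.a, p, x.nA + 1, x.nI, x.nB, x.z⟩) ∧
      ∃ z', Inv M T η ε ⟨p, q, x.nA, x.nI + 1, x.nB, z'⟩ ∧
        ∀ j ≤ J, LOK M ε j (φ j) ⟨p, q, x.nA, x.nI + 1, x.nB, z'⟩ := by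
  classical
  have hlate : ∀ j ≤ J, late M x (φ j).Ea ≤ 11 * 2 ^ j * ε * Phi ε x := by
    intro j hj
    refine late_le he0.le ?_ (hφ j hj).1 (by have := (hφ j hj).2; omega)
    refine le_trans ?_ heJ
    exact mul_le_mul_of_nonneg_left (pow_le_pow_right₀ (by norm_num) hj) he0.le
  have hexpj : ∀ j ≤ J, ε * (2 : ℝ) ^ j ≤ 1 := by
    intro j hj
    refine le_trans ?_ heJ
    exact mul_le_mul_of_nonneg_left (pow_le_pow_right₀ (by norm_num) hj) he0.le
  obtain ⟨a, b, nA, nI, nB, z⟩ := x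
  obtain ⟨hlt, hbT, i1, i2, i3, i4⟩ := hx
  unfold late at hlate
  simp only at hlt hbT i1 i2 i3 i4 hL hφ hlate ⊢
  -- the increments
  set lam : ℕ → ℝ := fun j => 1 / (22 * ((J : ℝ) + 1) * 2 ^ j) with hlam
  have hlam0 : ∀ j, 0 < lam j := by intro j; rw [hlam]; positivity
  set inc : Finset (Fin n × Bool) → ℝ :=
    fun C => ∑ j ∈ Finset.range (J + 1), (if C ∈ (φ j).Ea then 0 else lam j) with hinc
  have hterm0 : ∀ (C : Finset (Fin n × Bool)) (j : ℕ), 0 ≤ (if C ∈ (φ j).Ea then 0 else lam j) := by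
    intro C j
    split_ifs
    · exact le_refl _
    · exact (hlam0 j).le
  have hinc0 : ∀ C, 0 ≤ inc C := fun C => Finset.sum_nonneg (fun j _ => hterm0 C j)
  have hinc1 : ∀ C, inc C ≤ 1 := by
    intro C
    have h1 : inc C ≤ ∑ j ∈ Finset.range (J + 1), (1 / ((J : ℝ) + 1)) := by
      apply Finset.sum_le_sum
      intro j _
      have h2 : lam j ≤ 1 / ((J : ℝ) + 1) := by
        rw [hlam]
        apply one_div_le_one_div_of_le (by positivity)
        have h3 : (1 : ℝ) ≤ 2 ^ j := one_le_pow₀ (by norm_num)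
        have h4 : (0 : ℝ) < (J : ℝ) + 1 := by positivity
        nlinarith
      split_ifs
      · positivity
      · exact h2
    refine h1.trans ?_
    rw [Finset.sum_const, Finset.card_range, nsmul_eq_mul]
    push_cast
    rw [mul_one_div, div_self (by positivity)]
  have hexp : ∀ C, Real.exp (inc C) ≤ 1 + 2 * inc C := by
    intro C
    have h1 := Real.exp_bound' (hinc0 C) (hinc1 C) (n := 2) (by norm_num)
    simp [Finset.sum_range_succ] at h1
    have h2 := hinc0 C
    have h3 := hinc1 C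
    nlinarith
  set z' : Finset (Fin n × Bool) → ℝ := fun C => z C + inc C with hz'
  have hwt' : ∀ C, wt z' C ≤ wt z C + 2 * (inc C * wt z C) := by
    intro C
    have h1 : wt z' C = Real.exp (inc C) * wt z C := by
      unfold wt
      rw [hz']
      simp only
      rw [Real.exp_add]
      ring
    rw [h1]
    have := mul_le_mul_of_nonneg_right (hexp C) (wt_pos z C).le
    linarith
  -- the total increase
  set Ph : ℝ := 3 * Real.exp (ε * nI - ε * nB) with hPh
  have hPh0 : 0 < Ph := by rw [hPh]; positivity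
  have hDelta : ∑ C ∈ V M a b, 2 * (inc C * wt z C) ≤ ε * Ph := by
    have e1 : ∑ C ∈ V M a b, 2 * (inc C * wt z C)
        = ∑ j ∈ Finset.range (J + 1), 2 * (lam j * ∑ C ∈ V M a b \ (φ j).Ea, wt z C) := by
      rw [← Finset.mul_sum, ← Finset.mul_sum]
      congr 1
      rw [hinc]
      simp only [Finset.sum_mul]
      rw [Finset.sum_comm]
      apply Finset.sum_congr rfl
      intro j _
      rw [Finset.mul_sum]
      have e2 : ∀ C ∈ V M a b, (if C ∈ (φ j).Ea then 0 else lam j) * wt z C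
          = if C ∉ (φ j).Ea then lam j * wt z C else 0 := by
        intro C _
        by_cases h : C ∈ (φ j).Ea
        · simp [h]
        · simp [h]
      rw [Finset.sum_congr rfl e2, ← Finset.sum_filter]
      congr 1
      ext C
      simp [Finset.mem_sdiff]
    rw [e1]
    have h1 : ∑ j ∈ Finset.range (J + 1), 2 * (lam j * ∑ C ∈ V M a b \ (φ j).Ea, wt z C)
        ≤ ∑ j ∈ Finset.range (J + 1), (ε * Ph) / ((J : ℝ) + 1) := by
      apply Finset.sum_le_sum
      intro j hj
      rw [Finset.mem_range] at hj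
      have h2 := hlate j (by omega)
      unfold Phi at h2
      simp only at h2
      have h3 : 2 * (lam j * ∑ C ∈ V M a b \ (φ j).Ea, wt z C)
          ≤ 2 * (lam j * (11 * 2 ^ j * ε * Ph)) := by
        have := mul_le_mul_of_nonneg_left h2 (hlam0 j).le
        linarith
      refine h3.trans (le_of_eq ?_)
      rw [hlam]
      simp only
      field_simp
      norm_num
    refine h1.trans (le_of_eq ?_)
    rw [Finset.sum_const, Finset.card_range, nsmul_eq_mul]
    push_cast
    field_simp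
  have hterm : ∀ C, 0 ≤ 2 * (inc C * wt z C) := fun C =>
    mul_nonneg (by norm_num) (mul_nonneg (hinc0 C) (wt_pos z C).le)
  -- good times
  set good : ℕ → Prop := fun c => ∀ j ≤ J, ∑ C ∈ M c \ (φ j).Ea, C.card ≤ H * 2 ^ j with hgood
  set mid : ℕ := (a + b) / 2 with hmid
  have hp : ∃ p, a ≤ p ∧ p ≤ mid ∧ (a < p → good p) ∧ ∀ t, p < t → t ≤ mid → ¬ good t := by
    by_cases hP : ((Finset.Icc (a + 1) mid).filter (fun c => good c)).Nonempty
    · obtain ⟨p, hp, hpmax⟩ := Finset.exists_max_image _ (fun t : ℕ => t) hP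
      rw [Finset.mem_filter, Finset.mem_Icc] at hp
      refine ⟨p, by omega, hp.1.2, fun _ => hp.2, ?_⟩
      intro t h1 h2 h3
      have := hpmax t (Finset.mem_filter.mpr ⟨Finset.mem_Icc.mpr ⟨by omega, h2⟩, h3⟩)
      omega
    · refine ⟨a, le_refl _, by omega, fun h => absurd h (lt_irrefl _), ?_⟩
      intro t h1 h2 h3
      exact hP ⟨t, Finset.mem_filter.mpr ⟨Finset.mem_Icc.mpr ⟨by omega, h2⟩, h3⟩⟩
  obtain ⟨p, hp1, hp2, hp3, hp4⟩ := hp
  have hq : ∃ q, mid + 1 ≤ q ∧ q ≤ b ∧ (q < b → good q) ∧ ∀ t, mid + 1 ≤ t → t < q → ¬ good t := by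
    by_cases hQ : ∃ c, mid + 1 ≤ c ∧ c < b ∧ good c
    · refine ⟨Nat.find hQ, (Nat.find_spec hQ).1, (Nat.find_spec hQ).2.1.le,
        fun _ => (Nat.find_spec hQ).2.2, ?_⟩
      intro t h1 h2 h4
      have h3 := (Nat.find_spec hQ).2.1
      exact Nat.find_min hQ h2 ⟨h1, by omega, h4⟩
    · refine ⟨b, by omega, le_refl _, fun h => absurd h (lt_irrefl _), ?_⟩
      intro t h1 h2 h3
      exact hQ ⟨t, h1, h2, h3⟩
  obtain ⟨q, hq1, hq2, hq3, hq4⟩ := hq
  have hbadt : ∀ t, p < t → t < q → ¬ good t := by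
    intro t h1 h2
    by_cases h3 : t ≤ mid
    · exact hp4 t h1 h3
    · exact hq4 t (by omega) h2
  have hi1' : ∀ L : ℕ, L ≤ b - a - 1 → L * 2 ^ nA ≤ T := fun L hL =>
    le_trans (Nat.mul_le_mul_right _ hL) i1
  have hi1'' : ∀ L : ℕ, 2 * L ≤ b - a - 1 → L * 2 ^ (nA + 1) ≤ T := by
    intro L hL
    have : L * 2 ^ (nA + 1) = (2 * L) * 2 ^ nA := by ring
    rw [this]
    exact hi1' _ hL
  refine ⟨p, q, hp1, by omega, hq2, hp3, hq3, ?_, ?_, z', ?_, ?_⟩
  · intro hqb
    constructor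
    · exact hqb
    · exact hbT
    · simp only
      exact hi1'' _ (by omega)
    · simp only
      exact (W_mono M z (by omega) (le_refl _)).trans i2
    · simp only
      intro u h1 h2
      exact i3 u (by omega) h2
    · exact i4
  · intro hap
    constructor
    · exact hap
    · simp only; omega
    · simp only
      exact hi1'' _ (by omega)
    · simp only
      exact (W_mono M z (le_refl _) (by omega)).trans i2
    · simp only
      intro u h1 h2
      exact i3 u h1 (by omega)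
    · exact i4
  · constructor
    · simp only; omega
    · simp only; omega
    · simp only
      exact hi1' _ (by omega)
    · simp only
      have h1 : W M z' p q ≤ W M z' a b := W_mono M _ (by omega) (by omega)
      have h2 : W M z' a b ≤ W M z a b + ε * Ph := by
        have h3 : W M z' a b ≤ ∑ C ∈ V M a b, (wt z C + 2 * (inc C * wt z C)) :=
          Finset.sum_le_sum (fun C _ => hwt' C)
        rw [Finset.sum_add_distrib] at h3
        unfold W at h3 ⊢
        linarith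
      have h3 : (1 + ε) ≤ Real.exp ε := by
        have := Real.add_one_le_exp ε
        linarith
      have h4 : Real.exp (ε * ((nI + 1 : ℕ) : ℝ) - ε * (nB : ℝ))
          = Real.exp ε * Real.exp (ε * (nI : ℝ) - ε * (nB : ℝ)) := by
        rw [← Real.exp_add]
        congr 1
        push_cast
        ring
      rw [h4]
      calc W M z' p q ≤ W M z a b + ε * Ph := h1.trans h2
        _ ≤ Ph + ε * Ph := by linarith
        _ = (1 + ε) * Ph := by ring
        _ ≤ Real.exp ε * Ph := mul_le_mul_of_nonneg_right h3 hPh0.le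
        _ = 3 * (Real.exp ε * Real.exp (ε * (nI : ℝ) - ε * (nB : ℝ))) := by rw [hPh]; ring
    · simp only
      intro u h1 h2
      have h3 := i3 u (by omega) (by omega)
      have h4 := hbadt u h1 h2
      rw [hgood] at h4
      simp only at h4
      push Not at h4
      obtain ⟨j, hj, hjb⟩ := h4
      have h5 : ∑ C ∈ M u, (C.card : ℝ) * z' C
          = ∑ C ∈ M u, (C.card : ℝ) * z C + ∑ C ∈ M u, (C.card : ℝ) * inc C := by
        rw [← Finset.sum_add_distrib]
        apply Finset.sum_congr rfl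
        intro C _
        rw [hz']
        ring
      have h6 : (η : ℝ) ≤ ∑ C ∈ M u, (C.card : ℝ) * inc C := by
        have h7 : ∑ C ∈ M u \ (φ j).Ea, (C.card : ℝ) * lam j ≤ ∑ C ∈ M u, (C.card : ℝ) * inc C := by
          calc ∑ C ∈ M u \ (φ j).Ea, (C.card : ℝ) * lam j
              ≤ ∑ C ∈ M u \ (φ j).Ea, (C.card : ℝ) * inc C := by
                apply Finset.sum_le_sum
                intro C hC
                apply mul_le_mul_of_nonneg_left _ (Nat.cast_nonneg _)
                have h8 : (if C ∈ (φ j).Ea then 0 else lam j) ≤ inc C :=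
                  Finset.single_le_sum (f := fun j => (if C ∈ (φ j).Ea then 0 else lam j))
                    (fun i _ => hterm0 C i) (Finset.mem_range.mpr (by omega))
                rw [if_neg (Finset.mem_sdiff.mp hC).2] at h8
                exact h8
            _ ≤ ∑ C ∈ M u, (C.card : ℝ) * inc C := by
                apply Finset.sum_le_sum_of_subset_of_nonneg Finset.sdiff_subset
                intro C _ _
                exact mul_nonneg (Nat.cast_nonneg _) (hinc0 C)
        refine le_trans ?_ h7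
        rw [← Finset.sum_mul]
        have h9 : ((H * 2 ^ j : ℕ) : ℝ) ≤ ∑ C ∈ M u \ (φ j).Ea, (C.card : ℝ) := by
          exact_mod_cast hjb.le
        have h10 : ((H * 2 ^ j : ℕ) : ℝ) * lam j = (η : ℝ) := by
          rw [hH, hlam]
          push_cast
          field_simp
        rw [← h10]
        exact mul_le_mul_of_nonneg_right h9 (hlam0 j).le
      rw [h5]
      push_cast
      linarith
    · simp only
      intro C
      exact add_nonneg (i4 C) (hinc0 C)
  · intro j hj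
    obtain ⟨hLOK, hbud⟩ := hφ j hj
    obtain ⟨k1, k2, k3⟩ := hLOK
    unfold late at k3
    simp only at k1 k2 k3
    refine ⟨by simp only; omega, k2, ?_⟩
    unfold late
    simp only
    have h1 : ∑ C ∈ V M p q \ (φ j).Ea, wt z' C ≤ ∑ C ∈ V M a b \ (φ j).Ea, wt z' C :=
      Finset.sum_le_sum_of_subset_of_nonneg
        (Finset.sdiff_subset_sdiff (V_mono M hp1 hq2) (Finset.Subset.refl _))
        (fun C _ _ => (wt_pos z' C).le)
    have h2 : ∑ C ∈ V M a b \ (φ j).Ea, wt z' C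
        ≤ ∑ C ∈ V M a b \ (φ j).Ea, wt z C + ε * Ph := by
      have h3 : ∑ C ∈ V M a b \ (φ j).Ea, wt z' C
          ≤ ∑ C ∈ V M a b \ (φ j).Ea, (wt z C + 2 * (inc C * wt z C)) :=
        Finset.sum_le_sum (fun C _ => hwt' C)
      rw [Finset.sum_add_distrib] at h3
      have h4 : ∑ C ∈ V M a b \ (φ j).Ea, 2 * (inc C * wt z C)
          ≤ ∑ C ∈ V M a b, 2 * (inc C * wt z C) :=
        Finset.sum_le_sum_of_subset_of_nonneg Finset.sdiff_subset (fun C _ _ => hterm C)
      linarith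
    have h5 : Ph ≤ 3 * Real.exp (ε * (φ j).cI - ε * (φ j).cB) * Real.exp 1 := by
      rw [hPh, mul_assoc, ← Real.exp_add]
      apply mul_le_mul_of_nonneg_left _ (by norm_num)
      apply Real.exp_le_exp.mpr
      have h6 : (nI : ℝ) ≤ (φ j).cI + 2 ^ j := by
        have : nI ≤ (φ j).cI + 2 ^ j := by omega
        exact_mod_cast this
      have h7 : ((φ j).cB : ℝ) ≤ nB := by exact_mod_cast k2
      have h8 := hexpj j hj
      nlinarith
    have h9 : ε * Ph ≤ 3 * Real.exp (ε * (φ j).cI - ε * (φ j).cB) * (ε * Real.exp 1) := by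
      have := mul_le_mul_of_nonneg_left h5 he0.le
      linarith
    push_cast
    have h10 : 3 * Real.exp (ε * ((φ j).cI : ℝ) - ε * ((φ j).cB : ℝ)) *
        (ε * 2 ^ j + ε * Real.exp 1 * ((nI : ℝ) + 1 - ((φ j).cI : ℝ)))
        = 3 * Real.exp (ε * ((φ j).cI : ℝ) - ε * ((φ j).cB : ℝ)) *
        (ε * 2 ^ j + ε * Real.exp 1 * ((nI : ℝ) - ((φ j).cI : ℝ)))
        + 3 * Real.exp (ε * ((φ j).cI : ℝ) - ε * ((φ j).cB : ℝ)) * (ε * Real.exp 1) := by ring
    rw [h10]
    linarith

end Pool.Agent.T9h7.RE
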